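import Pool.Agent.FPH.Peierls

/-!
The law of large numbers along the negative axis.
-/

open MeasureTheory ProbabilityTheory Filter Topology

namespace Pool.Agent.FPH

variable {d : ℕ} [NeZero d]

/-- Index of the passage time of the `k`-th edge of the negative axis for the second
process. -/
def axIdx (d : ℕ) [NeZero d] (k : ℕ) : Idx d := Sum.inr (s(ax k, ax (k + 1)), true)

lemma axIdx_inj : Function.Injective (axIdx d) := by
  intro j k h
  unfold axIdx at h
  have h1 : s((ax j : Site d), ax (j + 1)) = s(ax k, ax (k + 1)) := by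
    have := Sum.inr_injective h
    exact (Prod.ext_iff.mp this).1
  rcases Sym2.eq_iff.mp h1 with ⟨h2, -⟩ | ⟨h2, h3⟩
  · exact ax_inj h2
  · have e2 := ax_inj h2
    have e3 := ax_inj h3
    omega

lemma slln (p : unitInterval) (ν : Measure ℝ) [IsProbabilityMeasure ν]
    (hint : Integrable (fun t => t) ν) :
    ∀ᵐ ω ∂(envLaw d p ν), Tendsto (fun n : ℕ => (∑ k ∈ Finset.range n, ω (axIdx d k)) / (n : ℝ)) atTop
      (𝓝 (∫ t : ℝ, t ∂ν)) := by
  have hmp : ∀ k : ℕ, MeasurePreserving (Function.eval (axIdx d k)) (envLaw d p ν) ν :=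
    fun k => measurePreserving_eval_infinitePi (law d p ν) (axIdx d k)
  have hI : iIndepFun (fun (k : Idx d) (ω : Env d) => (fun t : ℝ => t) (ω k)) (envLaw d p ν) :=
    iIndepFun_infinitePi (P := law d p ν) (X := fun _ t => t) (fun _ => measurable_id)
  have h := strong_law_ae_real (μ := envLaw d p ν) (fun (k : ℕ) (ω : Env d) => ω (axIdx d k))
    ?_ ?_ ?_
  · have hE : ∫ ω, ω (axIdx d 0) ∂(envLaw d p ν) = ∫ t : ℝ, t ∂ν := by
      have h1 := (hmp 0).map_eq
      conv_rhs => rw [← h1]
      rw [integral_map (hmp 0).measurable.aemeasurable (by fun_prop)]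
    rw [hE] at h
    exact h
  · exact (hmp 0).integrable_comp_of_integrable hint
  · intro j k hjk
    exact hI.indepFun (fun h => hjk (axIdx_inj h))
  · intro k
    exact ⟨(hmp k).measurable.aemeasurable, (hmp 0).measurable.aemeasurable, by
      rw [show (fun ω : Env d => ω (axIdx d k)) = Function.eval (axIdx d k) from rfl,
        show (fun ω : Env d => ω (axIdx d 0)) = Function.eval (axIdx d 0) from rfl,
        (hmp k).map_eq, (hmp 0).map_eq]⟩

/-- The times on the axis grow at most linearly, with positive probability. -/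
lemma exists_axis (p : unitInterval) (ν : Measure ℝ) [IsProbabilityMeasure ν]
    (hint : Integrable (fun t => t) ν) {lam κ : ℝ} (hl0 : 0 < lam)
    (hκ : (∫ t : ℝ, t ∂ν) < κ * lam) :
    ∃ K : ℕ, 0 < envLaw d p ν {ω : Env d | ∀ n : ℕ, axT lam ω n ≤ κ * n + K} := by
  by_contra hcon
  push Not at hcon
  have h0 : envLaw d p ν (⋃ K : ℕ, {ω : Env d | ∀ n : ℕ, axT lam ω n ≤ κ * n + K}) = 0 := by
    rw [measure_iUnion_null_iff]
    intro K
    exact le_antisymm (hcon K) zero_le
  have h1 : ∀ᵐ ω ∂(envLaw d p ν), ω ∈ (⋃ K : ℕ, {ω : Env d | ∀ n : ℕ,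
      axT lam ω n ≤ κ * n + K}) := by
    filter_upwards [slln (d := d) p ν hint] with ω hω
    have hev := hω.eventually_lt_const hκ
    obtain ⟨n0, hn0⟩ := (hev.and (eventually_ge_atTop 1)).exists_forall_of_atTop
    -- bound on the finitely many others
    obtain ⟨B, hB⟩ : ∃ B : ℝ, ∀ n ∈ Finset.range n0, axT lam ω n - κ * n ≤ B := by
      obtain ⟨B, hB⟩ := (((Finset.range n0).image (fun n => axT lam ω n - κ * n)).finite_toSet).bddAbove
      refine ⟨B, fun n hn => hB ?_⟩
      exact Finset.mem_coe.mpr (Finset.mem_image_of_mem _ hn)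
    obtain ⟨K, hK⟩ := exists_nat_ge (max B (ω (Sum.inr (s(0, ax 1), false))))
    refine Set.mem_iUnion.mpr ⟨K, ?_⟩
    show ∀ n : ℕ, axT lam ω n ≤ κ * n + K
    intro n
    by_cases hn : n < n0
    · have := hB n (Finset.mem_range.mpr hn)
      have h2 : B ≤ K := le_trans (le_max_left _ _) hK
      linarith
    · obtain ⟨h2, h3⟩ := hn0 n (by omega)
      have hnpos : (0 : ℝ) < n := by exact_mod_cast h3
      rw [div_lt_iff₀ hnpos] at h2
      have h4 : ω (Sum.inr (s(0, ax 1), false)) ≤ K := le_trans (le_max_right _ _) hK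
      unfold axT
      have h5 : (∑ k ∈ Finset.range n, ω (Sum.inr (s(ax k, ax (k + 1)), true))) / lam ≤ κ * n := by
        rw [div_le_iff₀ hl0]
        have h6 : (∑ k ∈ Finset.range n, ω (Sum.inr (s(ax k, ax (k + 1)), true))) =
            ∑ k ∈ Finset.range n, ω (axIdx d k) := rfl
        rw [h6]
        have h7 : κ * lam * n = κ * n * lam := by ring
        linarith
      linarith
  have h2 : envLaw d p ν (⋃ K : ℕ, {ω : Env d | ∀ n : ℕ, axT lam ω n ≤ κ * n + K})ᶜ = 0 := h1
  have h3 : envLaw d p ν Set.univ ≤ 0 := by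
    rw [← Set.union_compl_self (⋃ K : ℕ, {ω : Env d | ∀ n : ℕ, axT lam ω n ≤ κ * n + K})]
    refine le_trans (measure_union_le _ _) ?_
    rw [h0, h2, add_zero]
  rw [measure_univ] at h3
  exact absurd h3 (by norm_num)

end Pool.Agent.FPH
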