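import Mathlib

/-!
First passage percolation in a hostile environment with general passage times:
definitions.
-/

open MeasureTheory ProbabilityTheory

namespace Pool.Agent.FPH

/-- The sites of the cubic lattice of dimension `d`. -/
abbrev Site (d : ℕ) := Fin d → ℤ

/-- The nearest neighbour graph on the sites. -/
def lattice (d : ℕ) : SimpleGraph (Site d) where
  Adj x y := ∑ i, |x i - y i| = 1
  symm := ⟨by
    intro x y h
    have : ∑ i, |y i - x i| = ∑ i, |x i - y i| :=
      Finset.sum_congr rfl (fun i _ => abs_sub_comm _ _)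
    show ∑ i, |y i - x i| = 1
    rw [this]; exact h⟩
  loopless := ⟨by
    intro x h
    simp at h⟩

/-- Index set of the independent variables: `inl x` is the mark of the site `x`,
`inr (e, false)` the passage time of the edge `e` for the first process,
`inr (e, true)` the (unscaled) passage time of `e` for the second process. -/
abbrev Idx (d : ℕ) := Site d ⊕ (Sym2 (Site d) × Bool)

/-- Environments. -/
abbrev Env (d : ℕ) := Idx d → ℝ

/-- The law of the mark of a site: `1` (a seed) with probability `p`, `0` with
probability `1 - p`. -/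
noncomputable def seedLaw (p : unitInterval) : Measure ℝ :=
  ENNReal.ofReal (p : ℝ) • Measure.dirac 1 + ENNReal.ofReal (1 - (p : ℝ)) • Measure.dirac 0

instance (p : unitInterval) : IsProbabilityMeasure (seedLaw p) := by
  constructor
  have h0 : (0 : ℝ) ≤ p := p.2.1
  have h1 : (0 : ℝ) ≤ 1 - (p : ℝ) := by linarith [p.2.2]
  simp only [seedLaw, Measure.add_apply, Measure.smul_apply, measure_univ, smul_eq_mul, mul_one]
  rw [← ENNReal.ofReal_add h0 h1]
  simp

/-- The laws of the independent variables: marks have law `seedLaw p`, passage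
times have law `ν`. -/
noncomputable def law (d : ℕ) (p : unitInterval) (ν : Measure ℝ) : Idx d → Measure ℝ
  | Sum.inl _ => seedLaw p
  | Sum.inr _ => ν

instance (d : ℕ) (p : unitInterval) (ν : Measure ℝ) [IsProbabilityMeasure ν] (k : Idx d) :
    IsProbabilityMeasure (law d p ν k) := by
  cases k with
  | inl x => exact (inferInstance : IsProbabilityMeasure (seedLaw p))
  | inr e => exact (inferInstance : IsProbabilityMeasure ν)

/-- The law of the environment: all variables are independent. -/
noncomputable def envLaw (d : ℕ) (p : unitInterval) (ν : Measure ℝ) [IsProbabilityMeasure ν] :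
    Measure (Env d) :=
  Measure.infinitePi (law d p ν)

instance (d : ℕ) (p : unitInterval) (ν : Measure ℝ) [IsProbabilityMeasure ν] :
    IsProbabilityMeasure (envLaw d p ν) := by
  unfold envLaw; infer_instance

/-- The site `x` carries a seed. -/
def IsSeed {d : ℕ} (ω : Env d) (x : Site d) : Prop := ω (Sum.inl x) = 1

/-- The time to cross the edge between `x` and `y`, for the first process (`b = false`)
and for the second process (`b = true`), the latter slowed down by the factor `lam`. -/
noncomputable def passage {d : ℕ} (lam : ℝ) (ω : Env d) (b : Bool) (x y : Site d) : ℝ :=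
  if b then ω (Sum.inr (s(x, y), true)) / lam else ω (Sum.inr (s(x, y), false))

/-- `T` gives the times at which the sites are occupied and `c` their occupants
(`false`: the first process, `true`: the second one) in an evolution of first passage
percolation in the hostile environment `ω`; ties may be broken in any way. -/
structure Evolution {d : ℕ} (lam : ℝ) (ω : Env d) (T : Site d → ℝ) (c : Site d → Bool) :
    Prop where
  nonneg : ∀ x, 0 ≤ T x
  start : T 0 = 0 ∧ c 0 = false
  seed : ∀ x, x ≠ 0 → IsSeed ω x → c x = true
  le : ∀ x y, (lattice d).Adj x y → T y ≤ T x + passage lam ω (c x) x y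
  att : ∀ y, y ≠ 0 → ∃ x, (lattice d).Adj x y ∧ T y = T x + passage lam ω (c x) x y ∧
    (¬ IsSeed ω y → c y = c x)

/-- The process `b` survives: the sites it occupies contain an infinite connected set. -/
def Survives {d : ℕ} (c : Site d → Bool) (b : Bool) : Prop :=
  ∃ C : Set (Site d), C.Infinite ∧ (∀ x ∈ C, c x = b) ∧ ((lattice d).induce C).Connected

/-- `OPath ω n x`: there is an oriented path of `n` steps from the origin to `x`, all
its sites but the origin being free of seeds and all its edges having passage time `1`
for the first process. -/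
def OPath {d : ℕ} (ω : Env d) : ℕ → Site d → Prop
  | 0, x => x = 0
  | n + 1, y => ∃ (x : Site d) (i : Fin d), OPath ω n x ∧ y = x + Pi.single i 1 ∧
      ¬ IsSeed ω y ∧ ω (Sum.inr (s(x, y), false)) = 1

/-- There are such paths of every length. -/
def OPerc {d : ℕ} (ω : Env d) : Prop := ∀ n, ∃ x, OPath ω n x

/-- The weight of a site: its distance to the origin. -/
def nrm {d : ℕ} (x : Site d) : ℤ := ∑ i, |x i|

lemma nrm_nonneg {d : ℕ} (x : Site d) : 0 ≤ nrm x :=
  Finset.sum_nonneg (fun _ _ => abs_nonneg _)

@[simp] lemma nrm_zero {d : ℕ} : nrm (0 : Site d) = 0 := by simp [nrm]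

lemma adj_iff {d : ℕ} {x y : Site d} : (lattice d).Adj x y ↔ ∑ i, |x i - y i| = 1 := Iff.rfl

lemma nrm_le_of_adj {d : ℕ} {x y : Site d} (h : (lattice d).Adj x y) : nrm y ≤ nrm x + 1 := by
  have h1 : ∑ i, |x i - y i| = 1 := h
  have : nrm y ≤ nrm x + ∑ i, |x i - y i| := by
    unfold nrm
    rw [← Finset.sum_add_distrib]
    refine Finset.sum_le_sum (fun i _ => ?_)
    have := abs_sub_abs_le_abs_sub (y i) (x i)
    rw [abs_sub_comm] at this
    linarith
  rw [h1] at this
  exact this

/-- The steps: `(i, true)` is `+ e_i`, `(i, false)` is `- e_i`. -/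
def stp {d : ℕ} (s : Fin d × Bool) : Site d := Pi.single s.1 (if s.2 then 1 else -1)

lemma sum_abs_single {d : ℕ} (i : Fin d) (a : ℤ) :
    ∑ j, |(Pi.single i a : Site d) j| = |a| := by
  rw [Finset.sum_eq_single i]
  · simp
  · intro j _ hj
    simp [Pi.single_eq_of_ne hj]
  · intro h; exact absurd (Finset.mem_univ i) h

lemma adj_stp {d : ℕ} (x : Site d) (s : Fin d × Bool) : (lattice d).Adj x (x + stp s) := by
  show ∑ i, |x i - (x + stp s) i| = 1
  have : ∀ i, |x i - (x + stp s) i| = |stp s i| := by
    intro i
    simp only [Pi.add_apply, sub_add_cancel_left, abs_neg]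
  simp only [this]
  unfold stp
  rw [sum_abs_single]
  cases s.2 <;> simp

lemma exists_stp_of_adj {d : ℕ} {x y : Site d} (h : (lattice d).Adj x y) :
    ∃ s, y = x + stp s := by
  have h1 : ∑ i, |x i - y i| = 1 := h
  -- some coordinate differs
  obtain ⟨i, hi⟩ : ∃ i, x i ≠ y i := by
    by_contra hcon
    push Not at hcon
    have : ∑ i, |x i - y i| = 0 := Finset.sum_eq_zero (fun i _ => by simp [hcon i])
    omega
  have hge : 1 ≤ |x i - y i| := Int.one_le_abs (sub_ne_zero.mpr hi)
  have hsplit := Finset.add_sum_erase Finset.univ (fun i => |x i - y i|) (Finset.mem_univ i)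
  have hrest : 0 ≤ ∑ j ∈ Finset.univ.erase i, |x j - y j| :=
    Finset.sum_nonneg (fun _ _ => abs_nonneg _)
  have hi1 : |x i - y i| = 1 := by omega
  have hr0 : ∑ j ∈ Finset.univ.erase i, |x j - y j| = 0 := by omega
  have hz : ∀ j, j ≠ i → x j = y j := by
    intro j hj
    have := (Finset.sum_eq_zero_iff_of_nonneg (fun _ _ => abs_nonneg _)).mp hr0 j
      (Finset.mem_erase.mpr ⟨hj, Finset.mem_univ j⟩)
    have := abs_eq_zero.mp this
    omega
  rcases (abs_eq (by norm_num : (0:ℤ) ≤ 1)).mp hi1 with h2 | h2
  · refine ⟨(i, false), ?_⟩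
    funext j
    by_cases hj : j = i
    · subst hj
      simp [stp]
      omega
    · simp [stp, Pi.single_eq_of_ne hj, hz j hj]
  · refine ⟨(i, true), ?_⟩
    funext j
    by_cases hj : j = i
    · subst hj
      simp [stp]
      omega
    · simp [stp, Pi.single_eq_of_ne hj, hz j hj]

end Pool.Agent.FPH
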