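import Pool.Agent.FPH.Basic

/-!
Deterministic part: what an evolution looks like.
-/

open MeasureTheory ProbabilityTheory

namespace Pool.Agent.FPH

variable {d : ℕ} {lam : ℝ} {ω : Env d} {T : Site d → ℝ} {c : Site d → Bool}

lemma one_le_passage (hl0 : 0 < lam) (hl : lam ≤ 1)
    (h1 : ∀ (e : Sym2 (Site d)) (b : Bool), 1 ≤ ω (Sum.inr (e, b))) (b : Bool) (x y : Site d) :
    1 ≤ passage lam ω b x y := by
  unfold passage
  cases b with
  | false => simpa using h1 s(x, y) false
  | true =>
    simp only [if_true]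
    rw [le_div_iff₀ hl0]
    have := h1 s(x, y) true
    linarith

lemma one_lt_passage_true (hl0 : 0 < lam) (hl : lam < 1)
    (h1 : ∀ (e : Sym2 (Site d)) (b : Bool), 1 ≤ ω (Sum.inr (e, b))) (x y : Site d) :
    1 < passage lam ω true x y := by
  unfold passage
  simp only [if_true]
  rw [lt_div_iff₀ hl0]
  have := h1 s(x, y) true
  linarith

/-- (B1) -/
lemma lower (hE : Evolution lam ω T c) (hl0 : 0 < lam) (hl : lam < 1)
    (h1 : ∀ (e : Sym2 (Site d)) (b : Bool), 1 ≤ ω (Sum.inr (e, b))) :
    ∀ (n : ℕ) (y : Site d), T y < n →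
      (nrm y : ℝ) ≤ T y ∧ (y ≠ 0 → ¬ IsSeed ω y → c y = true → (nrm y : ℝ) < T y) := by
  intro n
  induction n with
  | zero =>
    intro y hy
    have := hE.nonneg y
    simp only [Nat.cast_zero] at hy
    linarith
  | succ n ih =>
    intro y hy
    by_cases hy0 : y = 0
    · subst hy0
      refine ⟨?_, fun h => absurd rfl h⟩
      simpa using hE.nonneg 0
    · obtain ⟨x, hxy, hT, hc⟩ := hE.att y hy0
      have hp := one_le_passage (ω := ω) hl0 hl.le h1 (c x) x y
      have hTx : T x < n := by
        push_cast at hy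
        linarith
      have hx := (ih x hTx).1
      have hn : (nrm y : ℝ) ≤ nrm x + 1 := by exact_mod_cast nrm_le_of_adj hxy
      refine ⟨by linarith, fun _ hs hcy => ?_⟩
      have hcx : c x = true := by rw [← hc hs]; exact hcy
      have hp' := one_lt_passage_true (ω := ω) hl0 hl h1 x y
      rw [hcx] at hT
      linarith

lemma nrm_le_T (hE : Evolution lam ω T c) (hl0 : 0 < lam) (hl : lam < 1)
    (h1 : ∀ (e : Sym2 (Site d)) (b : Bool), 1 ≤ ω (Sum.inr (e, b))) (y : Site d) :
    (nrm y : ℝ) ≤ T y := by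
  obtain ⟨n, hn⟩ := exists_nat_gt (T y)
  exact (lower hE hl0 hl h1 n y hn).1

lemma nrm_lt_T (hE : Evolution lam ω T c) (hl0 : 0 < lam) (hl : lam < 1)
    (h1 : ∀ (e : Sym2 (Site d)) (b : Bool), 1 ≤ ω (Sum.inr (e, b))) (y : Site d)
    (hy : y ≠ 0) (hs : ¬ IsSeed ω y) (hc : c y = true) : (nrm y : ℝ) < T y := by
  obtain ⟨n, hn⟩ := exists_nat_gt (T y)
  exact (lower hE hl0 hl h1 n y hn).2 hy hs hc

lemma OPath.pos {n : ℕ} {x : Site d} (h : OPath ω n x) :
    (∀ i, 0 ≤ x i) ∧ nrm x = n := by
  induction n generalizing x with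
  | zero =>
    have : x = 0 := h
    subst this
    simp
  | succ n ih =>
    obtain ⟨y, i, hy, hx, -, -⟩ := h
    obtain ⟨h0, h1⟩ := ih hy
    have hx' : ∀ j, x j = y j + (Pi.single i 1 : Site d) j := fun j => by rw [hx]; rfl
    have hs : ∀ j, 0 ≤ (Pi.single i 1 : Site d) j := by
      intro j
      by_cases hj : j = i
      · subst hj; simp
      · simp [Pi.single_eq_of_ne hj]
    refine ⟨fun j => by rw [hx' j]; exact add_nonneg (h0 j) (hs j), ?_⟩
    have h2 : nrm x = nrm y + ∑ j, |(Pi.single i 1 : Site d) j| := by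
      unfold nrm
      rw [← Finset.sum_add_distrib]
      refine Finset.sum_congr rfl (fun j _ => ?_)
      rw [hx' j, abs_of_nonneg (h0 j), abs_of_nonneg (hs j),
        abs_of_nonneg (add_nonneg (h0 j) (hs j))]
    rw [h2, sum_abs_single, h1]
    push_cast
    simp

/-- (B2) -/
lemma opath_blue (hE : Evolution lam ω T c) (hl0 : 0 < lam) (hl : lam < 1)
    (h1 : ∀ (e : Sym2 (Site d)) (b : Bool), 1 ≤ ω (Sum.inr (e, b))) {n : ℕ} {x : Site d}
    (h : OPath ω n x) : T x = n ∧ c x = false := by
  induction n generalizing x with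
  | zero =>
    have : x = 0 := h
    subst this
    simpa using hE.start
  | succ n ih =>
    have hpos := h.pos
    obtain ⟨y, i, hy, hx, hs, he⟩ := h
    obtain ⟨hTy, hcy⟩ := ih hy
    have hadj : (lattice d).Adj y x := by
      rw [hx]
      exact adj_stp y (i, true)
    have hle := hE.le y x hadj
    have hpas : passage lam ω (c y) y x = 1 := by
      rw [hcy]
      unfold passage
      simpa using he
    rw [hpas, hTy] at hle
    have hge := nrm_le_T hE hl0 hl h1 x
    have hn : (nrm x : ℝ) = n + 1 := by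
      rw [hpos.2]; push_cast; ring
    have hTx : T x = n + 1 := by linarith
    have hx0 : x ≠ 0 := by
      intro h0
      rw [h0] at hpos
      have := hpos.2
      simp at this
      omega
    refine ⟨by rw [hTx]; push_cast; ring, ?_⟩
    by_contra hc
    have hc' : c x = true := by simpa using hc
    have := nrm_lt_T hE hl0 hl h1 x hx0 hs hc'
    linarith

/-- (B) the first process survives if oriented percolation occurs. -/
lemma survives_false (hE : Evolution lam ω T c) (hl0 : 0 < lam) (hl : lam < 1)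
    (h1 : ∀ (e : Sym2 (Site d)) (b : Bool), 1 ≤ ω (Sum.inr (e, b)))
    (hP : OPerc ω) : Survives c false := by
  refine ⟨{x | ∃ n, OPath ω n x}, ?_, ?_, ?_⟩
  · choose f hf using hP
    refine Set.infinite_of_injective_forall_mem (f := f) ?_ (fun n => ⟨n, hf n⟩)
    intro m n hmn
    have h1 := (hf m).pos.2
    have h2 := (hf n).pos.2
    rw [hmn] at h1
    have : (m : ℤ) = n := by rw [← h1, ← h2]
    exact_mod_cast this
  · rintro x ⟨n, hn⟩
    exact (opath_blue hE hl0 hl h1 hn).2
  · have h0 : (0 : Site d) ∈ {x : Site d | ∃ n, OPath ω n x} := ⟨0, rfl⟩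
    have key : ∀ (n : ℕ) (x : Site d) (hx : OPath ω n x),
        ((lattice d).induce {x : Site d | ∃ n, OPath ω n x}).Reachable ⟨0, h0⟩ ⟨x, ⟨n, hx⟩⟩ := by
      intro n
      induction n with
      | zero =>
        intro x hx
        have : x = 0 := hx
        subst this
        exact SimpleGraph.Reachable.refl _
      | succ n ih =>
        intro x hx
        obtain ⟨y, i, hy, hxy, hs, he⟩ := id hx
        refine (ih y hy).trans (SimpleGraph.Adj.reachable ?_)
        show (lattice d).Adj y x
        rw [hxy]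
        exact adj_stp y (i, true)
    refine { preconnected := ?_, nonempty := ⟨⟨0, h0⟩⟩ }
    rintro ⟨x, m, hx⟩ ⟨y, n, hy⟩
    exact (key m x hx).symm.trans (key n y hy)

/-- The end of a word of steps (read from the right). -/
def endp : List (Fin d × Bool) → Site d
  | [] => 0
  | s :: l => endp l + stp s

/-- The sites entered by the word carry no seeds. -/
def okl (ω : Env d) : List (Fin d × Bool) → Prop
  | [] => True
  | s :: l => ¬ IsSeed ω (endp (s :: l)) ∧ okl ω l

lemma blue_path_aux (hE : Evolution lam ω T c) (hl0 : 0 < lam) (hl : lam < 1)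
    (h1 : ∀ (e : Sym2 (Site d)) (b : Bool), 1 ≤ ω (Sum.inr (e, b))) :
    ∀ (n : ℕ) (y : Site d), T y < n → c y = false →
      ∃ l : List (Fin d × Bool), endp l = y ∧ (l.length : ℝ) ≤ T y ∧ okl ω l := by
  intro n
  induction n with
  | zero =>
    intro y hy _
    have := hE.nonneg y
    simp only [Nat.cast_zero] at hy
    linarith
  | succ n ih =>
    intro y hy hc
    by_cases hy0 : y = 0
    · subst hy0
      exact ⟨[], rfl, by simpa using hE.nonneg 0, trivial⟩
    · have hs : ¬ IsSeed ω y := by
        intro hs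
        rw [hE.seed y hy0 hs] at hc
        exact absurd hc (by simp)
      obtain ⟨x, hxy, hT, hcc⟩ := hE.att y hy0
      have hp := one_le_passage (ω := ω) hl0 hl.le h1 (c x) x y
      have hTx : T x < n := by
        push_cast at hy
        linarith
      obtain ⟨l, hl1, hl2, hl3⟩ := ih x hTx (by rw [← hcc hs]; exact hc)
      obtain ⟨s, hs'⟩ := exists_stp_of_adj hxy
      have he : endp (s :: l) = y := by
        show endp l + stp s = y
        rw [hl1, hs']
      refine ⟨s :: l, he, ?_, ?_, hl3⟩
      · simp only [List.length_cons, Nat.cast_add, Nat.cast_one]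
        linarith
      · rw [he]; exact hs

/-- A site occupied by the first process is the end of a seedless path whose length is
at most its time. -/
lemma blue_path (hE : Evolution lam ω T c) (hl0 : 0 < lam) (hl : lam < 1)
    (h1 : ∀ (e : Sym2 (Site d)) (b : Bool), 1 ≤ ω (Sum.inr (e, b))) (y : Site d)
    (hc : c y = false) :
    ∃ l : List (Fin d × Bool), endp l = y ∧ (l.length : ℝ) ≤ T y ∧ okl ω l := by
  obtain ⟨n, hn⟩ := exists_nat_gt (T y)
  exact blue_path_aux hE hl0 hl h1 n y hn hc

end Pool.Agent.FPH
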