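import Pool.Agent.FPH.Basic

/-!
Existence of an evolution when all passage times are at least one.
-/

open MeasureTheory ProbabilityTheory

namespace Pool.Agent.FPH

variable {d : ℕ}

/-- Time at which `y` is reached from its neighbour `y + stp s` in the state `F`. -/
noncomputable def cand (lam : ℝ) (ω : Env d) (F : Site d → ℝ × Bool) (y : Site d)
    (s : Fin d × Bool) : ℝ :=
  (F (y + stp s)).1 + passage lam ω (F (y + stp s)).2 (y + stp s) y

lemma univ_ne [NeZero d] : (Finset.univ : Finset (Fin d × Bool)).Nonempty :=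
  ⟨(0, false), Finset.mem_univ _⟩

/-- The smallest candidate time. -/
noncomputable def cmin [NeZero d] (lam : ℝ) (ω : Env d) (F : Site d → ℝ × Bool) (y : Site d) : ℝ :=
  Finset.univ.inf' univ_ne (cand lam ω F y)

lemma cmin_le [NeZero d] (lam : ℝ) (ω : Env d) (F : Site d → ℝ × Bool) (y : Site d)
    (s : Fin d × Bool) : cmin lam ω F y ≤ cand lam ω F y s :=
  Finset.inf'_le _ (Finset.mem_univ s)

lemma exists_cmin [NeZero d] (lam : ℝ) (ω : Env d) (F : Site d → ℝ × Bool) (y : Site d) :
    ∃ s, cand lam ω F y s = cmin lam ω F y := by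
  obtain ⟨s, -, hs⟩ := Finset.exists_mem_eq_inf' univ_ne (cand lam ω F y)
  exact ⟨s, hs.symm⟩

open Classical in
/-- One round of the recursion. -/
noncomputable def rnd [NeZero d] (lam : ℝ) (ω : Env d) (F : Site d → ℝ × Bool) (y : Site d) :
    ℝ × Bool :=
  if y = 0 then (0, false) else
    (cmin lam ω F y,
      decide (IsSeed ω y ∨ ∃ s, cand lam ω F y s = cmin lam ω F y ∧ (F (y + stp s)).2 = true))

/-- The iterates. -/
noncomputable def itr [NeZero d] (lam : ℝ) (ω : Env d) : ℕ → Site d → ℝ × Bool
  | 0 => fun _ => (0, false)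
  | k + 1 => rnd lam ω (itr lam ω k)

variable [NeZero d] {lam : ℝ} {ω : Env d}

lemma itr_zero_site (k : ℕ) : itr lam ω k (0 : Site d) = (0, false) := by
  cases k with
  | zero => rfl
  | succ k => simp [itr, rnd]

lemma rnd_congr {F G : Site d → ℝ × Bool} (y : Site d) (h : ∀ s, F (y + stp s) = G (y + stp s)) :
    rnd lam ω F y = rnd lam ω G y := by
  have h1 : cand lam ω F y = cand lam ω G y := by
    funext s; unfold cand; rw [h s]
  have h2 : cmin lam ω F y = cmin lam ω G y := by
    unfold cmin; rw [h1]
  have hp : (IsSeed ω y ∨ ∃ s, cand lam ω F y s = cmin lam ω F y ∧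
      (F (y + stp s)).2 = true) ↔ (IsSeed ω y ∨ ∃ s, cand lam ω G y s = cmin lam ω G y ∧
      (G (y + stp s)).2 = true) := by
    simp only [h1, h2, h]
  unfold rnd
  by_cases hy : y = 0
  · rw [if_pos hy, if_pos hy]
  · rw [if_neg hy, if_neg hy]
    exact Prod.ext h2 (decide_eq_decide.mpr hp)

omit [NeZero d] in
lemma passage_pos (hl0 : 0 < lam) (hl : lam ≤ 1)
    (h1 : ∀ (e : Sym2 (Site d)) (b : Bool), 1 ≤ ω (Sum.inr (e, b))) (b : Bool) (x y : Site d) :
    1 ≤ passage lam ω b x y := by
  unfold passage
  cases b with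
  | false => simpa using h1 s(x, y) false
  | true =>
    simp only [if_true]
    rw [le_div_iff₀ hl0]
    have := h1 s(x, y) true
    linarith

lemma itr_nonneg (hl0 : 0 < lam) (hl : lam ≤ 1)
    (h1 : ∀ (e : Sym2 (Site d)) (b : Bool), 1 ≤ ω (Sum.inr (e, b))) (k : ℕ) (y : Site d) :
    0 ≤ (itr lam ω k y).1 := by
  induction k generalizing y with
  | zero => simp [itr]
  | succ k ih =>
    by_cases hy : y = 0
    · subst hy; rw [itr_zero_site]
    · obtain ⟨s, hs⟩ := exists_cmin lam ω (itr lam ω k) y
      have : (itr lam ω (k + 1) y).1 = cmin lam ω (itr lam ω k) y := by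
        simp [itr, rnd, hy]
      rw [this, ← hs]
      unfold cand
      have h2 := ih (y + stp s)
      have h3 := passage_pos (ω := ω) hl0 hl h1 (itr lam ω k (y + stp s)).2 (y + stp s) y
      linarith

lemma itr_stable (hl0 : 0 < lam) (hl : lam ≤ 1)
    (h1 : ∀ (e : Sym2 (Site d)) (b : Bool), 1 ≤ ω (Sum.inr (e, b))) (k : ℕ) (y : Site d)
    (h : (itr lam ω k y).1 < k ∨ (itr lam ω (k + 1) y).1 < k) :
    itr lam ω (k + 1) y = itr lam ω k y := by
  induction k generalizing y with
  | zero =>
    exfalso
    have h2 := itr_nonneg (ω := ω) hl0 hl h1 0 y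
    have h3 := itr_nonneg (ω := ω) hl0 hl h1 1 y
    rcases h with h | h
    · simp only [Nat.cast_zero] at h; linarith
    · simp only [Nat.cast_zero, zero_add] at h; linarith
  | succ k ih =>
    by_cases hy : y = 0
    · subst hy; rw [itr_zero_site, itr_zero_site]
    · -- the candidates below k + 1 agree
      have hc : ∀ s, (cand lam ω (itr lam ω k) y s < k + 1 ∨
          cand lam ω (itr lam ω (k + 1)) y s < k + 1) →
          itr lam ω (k + 1) (y + stp s) = itr lam ω k (y + stp s) := by
        intro s hs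
        refine ih (y + stp s) ?_
        rcases hs with hs | hs
        · left
          unfold cand at hs
          have := passage_pos (ω := ω) hl0 hl h1 (itr lam ω k (y + stp s)).2 (y + stp s) y
          linarith
        · right
          unfold cand at hs
          have := passage_pos (ω := ω) hl0 hl h1 (itr lam ω (k + 1) (y + stp s)).2
            (y + stp s) y
          linarith
      have hce : ∀ s, (cand lam ω (itr lam ω k) y s < k + 1 ∨
          cand lam ω (itr lam ω (k + 1)) y s < k + 1) →
          cand lam ω (itr lam ω (k + 1)) y s = cand lam ω (itr lam ω k) y s := by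
        intro s hs
        unfold cand
        rw [hc s hs]
      have e1 : (itr lam ω (k + 1) y).1 = cmin lam ω (itr lam ω k) y := by
        simp [itr, rnd, hy]
      have e2 : (itr lam ω (k + 1 + 1) y).1 = cmin lam ω (itr lam ω (k + 1)) y := by
        show (rnd lam ω (itr lam ω (k + 1)) y).1 = _
        simp [rnd, hy]
      obtain ⟨s1, hs1⟩ := exists_cmin lam ω (itr lam ω k) y
      obtain ⟨s2, hs2⟩ := exists_cmin lam ω (itr lam ω (k + 1)) y
      have hm : cmin lam ω (itr lam ω (k + 1)) y = cmin lam ω (itr lam ω k) y ∧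
          cmin lam ω (itr lam ω k) y < k + 1 := by
        rw [e1, e2] at h
        push_cast at h
        have l1 := cmin_le lam ω (itr lam ω (k + 1)) y s1
        have l2 := cmin_le lam ω (itr lam ω k) y s2
        rcases h with h | h
        · have a1 := hce s1 (Or.inl (by rw [hs1]; exact h))
          rw [a1, hs1] at l1
          have a2 := hce s2 (Or.inr (by rw [hs2]; exact lt_of_le_of_lt l1 h))
          rw [← a2, hs2] at l2
          exact ⟨le_antisymm l1 l2, h⟩
        · have a2 := hce s2 (Or.inr (by rw [hs2]; exact h))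
          rw [← a2, hs2] at l2
          have h' := lt_of_le_of_lt l2 h
          have a1 := hce s1 (Or.inl (by rw [hs1]; exact h'))
          rw [a1, hs1] at l1
          exact ⟨le_antisymm l1 l2, h'⟩
      obtain ⟨hm1, hm2⟩ := hm
      have hex : (∃ s, cand lam ω (itr lam ω (k + 1)) y s = cmin lam ω (itr lam ω (k + 1)) y ∧
          (itr lam ω (k + 1) (y + stp s)).2 = true) ↔
          (∃ s, cand lam ω (itr lam ω k) y s = cmin lam ω (itr lam ω k) y ∧
          (itr lam ω k (y + stp s)).2 = true) := by
        constructor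
        · rintro ⟨s, h2, h3⟩
          have hlt : cand lam ω (itr lam ω (k + 1)) y s < k + 1 := by
            rw [h2, hm1]; exact hm2
          refine ⟨s, ?_, ?_⟩
          · rw [← hce s (Or.inr hlt), h2, hm1]
          · rw [← hc s (Or.inr hlt)]; exact h3
        · rintro ⟨s, h2, h3⟩
          have hlt : cand lam ω (itr lam ω k) y s < k + 1 := by
            rw [h2]; exact hm2
          refine ⟨s, ?_, ?_⟩
          · rw [hce s (Or.inl hlt), h2, hm1]
          · rw [hc s (Or.inl hlt)]; exact h3
      show rnd lam ω (itr lam ω (k + 1)) y = rnd lam ω (itr lam ω k) y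
      unfold rnd
      rw [if_neg hy, if_neg hy]
      exact Prod.ext hm1 (decide_eq_decide.mpr (or_congr Iff.rfl hex))

omit [NeZero d] in
lemma exists_closer {y : Site d} (hy : y ≠ 0) : ∃ s, nrm (y + stp s) + 1 = nrm y := by
  obtain ⟨i, hi⟩ : ∃ i, y i ≠ 0 := by
    by_contra hcon
    push Not at hcon
    exact hy (funext hcon)
  have key : ∀ (b : Bool), |y i + (if b then 1 else -1)| + 1 = |y i| →
      nrm (y + stp (i, b)) + 1 = nrm y := by
    intro b hb
    unfold nrm
    rw [← Finset.add_sum_erase Finset.univ (fun j => |y j|) (Finset.mem_univ i),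
      ← Finset.add_sum_erase Finset.univ (fun j => |(y + stp (i, b)) j|) (Finset.mem_univ i)]
    have h1 : |(y + stp (i, b)) i| + 1 = |y i| := by
      rw [← hb]
      simp [stp]
    have h2 : ∑ j ∈ Finset.univ.erase i, |(y + stp (i, b)) j|
        = ∑ j ∈ Finset.univ.erase i, |y j| := by
      refine Finset.sum_congr rfl (fun j hj => ?_)
      have hj' : j ≠ i := (Finset.mem_erase.mp hj).1
      simp [stp, Pi.single_eq_of_ne hj']
    rw [h2]
    linarith
  rcases lt_or_gt_of_ne hi with h | h
  · refine ⟨(i, true), key true ?_⟩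
    simp only [if_true]
    rw [abs_of_nonpos (by omega), abs_of_neg h]
    ring
  · refine ⟨(i, false), key false ?_⟩
    simp only [Bool.false_eq_true, if_false]
    rw [abs_of_nonneg (by omega), abs_of_pos h]
    ring

lemma itr_bdd (lam : ℝ) (ω : Env d) : ∀ (n : ℕ) (y : Site d), nrm y = n →
    ∃ B : ℝ, ∀ k, (itr lam ω k y).1 ≤ B := by
  intro n
  induction n with
  | zero =>
    intro y hy
    have : y = 0 := by
      funext i
      have h0 : ∀ i ∈ Finset.univ, |y i| = 0 :=
        (Finset.sum_eq_zero_iff_of_nonneg (fun _ _ => abs_nonneg _)).mp (by simpa [nrm] using hy)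
      exact abs_eq_zero.mp (h0 i (Finset.mem_univ i))
    subst this
    exact ⟨0, fun k => by rw [itr_zero_site]⟩
  | succ n ih =>
    intro y hy
    have hy0 : y ≠ 0 := by
      intro h; rw [h] at hy; simp at hy; omega
    obtain ⟨s, hs⟩ := exists_closer hy0
    obtain ⟨B, hB⟩ := ih (y + stp s) (by push_cast at hy; omega)
    refine ⟨max 0 (B + max (passage lam ω true (y + stp s) y) (passage lam ω false (y + stp s) y)),
      fun k => ?_⟩
    cases k with
    | zero => simp [itr]
    | succ k =>
      refine le_trans ?_ (le_max_right _ _)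
      have e1 : (itr lam ω (k + 1) y).1 = cmin lam ω (itr lam ω k) y := by
        simp [itr, rnd, hy0]
      rw [e1]
      refine le_trans (cmin_le lam ω (itr lam ω k) y s) ?_
      unfold cand
      refine add_le_add (hB k) ?_
      cases (itr lam ω k (y + stp s)).2 with
      | false => exact le_max_right _ _
      | true => exact le_max_left _ _

/-- (E) existence of an evolution. -/
lemma exists_evolution (hl0 : 0 < lam) (hl : lam ≤ 1)
    (h1 : ∀ (e : Sym2 (Site d)) (b : Bool), 1 ≤ ω (Sum.inr (e, b))) :
    ∃ T c, Evolution lam ω T c := by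
  have hev : ∀ y : Site d, ∃ K : ℕ, ∀ k, K ≤ k → itr lam ω k y = itr lam ω K y := by
    intro y
    obtain ⟨n, hn⟩ := Int.eq_ofNat_of_zero_le (nrm_nonneg y)
    obtain ⟨B, hB⟩ := itr_bdd lam ω n y hn
    obtain ⟨K, hK⟩ := exists_nat_gt B
    refine ⟨K, fun k hk => ?_⟩
    induction k, hk using Nat.le_induction with
    | base => rfl
    | succ k hk ih =>
      rw [← ih]
      refine itr_stable hl0 hl h1 k y (Or.inl ?_)
      refine lt_of_le_of_lt (hB k) (lt_of_lt_of_le hK ?_)
      exact_mod_cast hk
  choose K hK using hev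
  let G : Site d → ℝ × Bool := fun y => itr lam ω (K y) y
  have hG : ∀ y, G y = rnd lam ω G y := by
    intro y
    let M : ℕ := K y + ∑ s : Fin d × Bool, K (y + stp s)
    have hM0 : K y ≤ M + 1 := by
      have : K y ≤ M := Nat.le_add_right _ _
      omega
    have hM : ∀ s, K (y + stp s) ≤ M := by
      intro s
      have := Finset.single_le_sum (f := fun s : Fin d × Bool => K (y + stp s))
        (fun _ _ => Nat.zero_le _) (Finset.mem_univ s)
      have h2 : K (y + stp s) ≤ ∑ s : Fin d × Bool, K (y + stp s) := this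
      exact le_trans h2 (Nat.le_add_left _ _)
    have e1 : G y = itr lam ω (M + 1) y := (hK y (M + 1) hM0).symm
    rw [e1]
    show rnd lam ω (itr lam ω M) y = _
    refine rnd_congr y (fun s => ?_)
    exact hK (y + stp s) M (hM s)
  have hGn : ∀ y, 0 ≤ (G y).1 := fun y => itr_nonneg hl0 hl h1 _ y
  have hG0 : G 0 = (0, false) := itr_zero_site _
  have hG1 : ∀ y, y ≠ 0 → (G y).1 = cmin lam ω G y := by
    intro y hy
    rw [hG y]
    simp only [rnd, if_neg hy]
  have hadj : ∀ (y : Site d) s, (lattice d).Adj (y + stp s) y := fun y s =>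
    (adj_stp y s).symm
  refine ⟨fun y => (G y).1, fun y => (G y).2, ?_, ?_, ?_, ?_, ?_⟩
  · exact hGn
  · simp [hG0]
  · intro x hx hs
    show (G x).2 = true
    rw [hG x]
    simp [rnd, hx, hs]
  · intro x y hxy
    show (G y).1 ≤ (G x).1 + passage lam ω (G x).2 x y
    by_cases hy : y = 0
    · subst hy
      rw [hG0]
      have h2 := hGn x
      have h3 := passage_pos (ω := ω) hl0 hl h1 (G x).2 x 0
      show (0 : ℝ) ≤ _
      linarith
    · obtain ⟨s, hs⟩ := exists_stp_of_adj hxy.symm
      rw [hG1 y hy]
      have := cmin_le lam ω G y s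
      unfold cand at this
      rw [← hs] at this
      exact this
  · intro y hy
    show ∃ x, (lattice d).Adj x y ∧ (G y).1 = (G x).1 + passage lam ω (G x).2 x y ∧
      (¬ IsSeed ω y → (G y).2 = (G x).2)
    have h2 : (G y).2 = true ↔ (IsSeed ω y ∨ ∃ s, cand lam ω G y s = cmin lam ω G y ∧
        (G (y + stp s)).2 = true) := by
      rw [hG y]
      simp only [rnd, if_neg hy, decide_eq_true_eq]
    by_cases hr : ∃ s, cand lam ω G y s = cmin lam ω G y ∧ (G (y + stp s)).2 = true
    · obtain ⟨s, hs1, hs2⟩ := hr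
      refine ⟨y + stp s, hadj y s, ?_, fun _ => ?_⟩
      · rw [hG1 y hy, ← hs1]; rfl
      · rw [hs2]
        exact h2.mpr (Or.inr ⟨s, hs1, hs2⟩)
    · obtain ⟨s, hs⟩ := exists_cmin lam ω G y
      refine ⟨y + stp s, hadj y s, ?_, fun hns => ?_⟩
      · rw [hG1 y hy, ← hs]; rfl
      · have hf : (G (y + stp s)).2 = false := by
          by_contra hc
          exact hr ⟨s, hs, by simpa using hc⟩
        rw [hf]
        by_contra hc
        have hc' : (G y).2 = true := by simpa using hc
        rcases h2.mp hc' with h3 | h3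
        · exact hns h3
        · exact hr h3

end Pool.Agent.FPH
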