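import Pool.Agent.FPH.Axis
import Pool.Agent.FPH.Exist

/-!
Coexistence.
-/

open MeasureTheory ProbabilityTheory Filter Topology

namespace Pool.Agent.FPH

variable {d : ℕ}

/-- Coordinates used by oriented percolation. -/
def SB (d : ℕ) : Set (Idx d) :=
  {k | (∃ x : Site d, k = Sum.inl x ∧ ∀ i, 0 ≤ x i) ∨
    (∃ x y : Site d, k = Sum.inr (s(x, y), false) ∧ (∀ i, 0 ≤ x i) ∧ ∀ i, 0 ≤ y i)}

lemma meas_opath (n : ℕ) (y : Site d) : MeasurableSet[sig (SB d)] {ω : Env d | OPath ω n y} := by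
  induction n generalizing y with
  | zero =>
    have : {ω : Env d | OPath ω 0 y} = {ω : Env d | y = 0} := rfl
    rw [this]
    exact @MeasurableSet.const _ (sig (SB d)) _
  | succ n ih =>
    by_cases hy : ∀ i, 0 ≤ y i
    · have : {ω : Env d | OPath ω (n + 1) y} = ⋃ (x : Site d), ⋃ (i : Fin d),
          {ω : Env d | OPath ω n x ∧ y = x + Pi.single i 1 ∧ ¬ IsSeed ω y ∧
            ω (Sum.inr (s(x, y), false)) = 1} := by
        ext ω
        simp only [Set.mem_iUnion]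
        rfl
      rw [this]
      refine MeasurableSet.iUnion (fun x => MeasurableSet.iUnion (fun i => ?_))
      by_cases hx : ∀ j, 0 ≤ x j
      · have h1 : MeasurableSet[sig (SB d)] {ω : Env d | IsSeed ω y} :=
          meas_seed (Or.inl ⟨y, rfl, hy⟩)
        have h2 : MeasurableSet[sig (SB d)] {ω : Env d | ω (Sum.inr (s(x, y), false)) = 1} :=
          (meas_coord (S := SB d) (k := Sum.inr (s(x, y), false))
            (Or.inr ⟨x, y, rfl, hx, hy⟩)) (measurableSet_singleton (1 : ℝ))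
        have h3 : MeasurableSet[sig (SB d)] {ω : Env d | y = x + Pi.single i 1} :=
          @MeasurableSet.const _ (sig (SB d)) _
        exact (ih x).inter (h3.inter (h1.compl.inter h2))
      · have : {ω : Env d | OPath ω n x ∧ y = x + Pi.single i 1 ∧ ¬ IsSeed ω y ∧
            ω (Sum.inr (s(x, y), false)) = 1} = ∅ := by
          ext ω
          simp only [Set.mem_empty_iff_false, iff_false]
          rintro ⟨h, -⟩
          exact hx h.pos.1
        rw [this]
        exact @MeasurableSet.empty _ (sig (SB d))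
    · have : {ω : Env d | OPath ω (n + 1) y} = ∅ := by
        ext ω
        simp only [Set.mem_empty_iff_false, iff_false]
        intro h
        exact hy (OPath.pos (n := n + 1) h).1
      rw [this]
      exact @MeasurableSet.empty _ (sig (SB d))

lemma meas_operc : MeasurableSet[sig (SB d)] {ω : Env d | OPerc ω} := by
  have : {ω : Env d | OPerc ω} = ⋂ n : ℕ, ⋃ x : Site d, {ω : Env d | OPath ω n x} := by
    ext ω
    simp only [Set.mem_iInter, Set.mem_iUnion]
    rfl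
  rw [this]
  exact MeasurableSet.iInter (fun n => MeasurableSet.iUnion (fun x => meas_opath n x))

variable [NeZero d]

/-- Coordinates used by the wall. -/
def S1 (d : ℕ) [NeZero d] : Set (Idx d) := {k | ∃ x : Site d, k = Sum.inl x ∧ x 0 = -1}

/-- Coordinates used by the path counting. -/
def S2 (d : ℕ) [NeZero d] : Set (Idx d) := {k | ∃ x : Site d, k = Sum.inl x ∧ x 0 ≤ -2}

/-- Coordinates used on the axis. -/
def S3 (d : ℕ) [NeZero d] : Set (Idx d) :=
  {k | k = Sum.inr (s(0, ax 1), false) ∨ ∃ j, k = axIdx d j}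

/-- A wall of seeds. -/
def Wall (d : ℕ) [NeZero d] (M : ℕ) : Set (Env d) :=
  {ω | ∀ x : Site d, x 0 = -1 → (∀ i, i ≠ 0 → |x i| ≤ M) → IsSeed ω x}

lemma meas_wall (M : ℕ) : MeasurableSet[sig (S1 d)] (Wall d M) := by
  have : (Wall d M) = ⋂ (x : Site d), ⋂ (_ : x 0 = -1), ⋂ (_ : ∀ i, i ≠ 0 → |x i| ≤ M),
      {ω : Env d | IsSeed ω x} := by
    ext ω
    simp only [Set.mem_iInter]
    rfl
  rw [this]
  refine MeasurableSet.iInter (fun x => MeasurableSet.iInter (fun hx =>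
    MeasurableSet.iInter (fun _ => ?_)))
  exact meas_seed ⟨x, rfl, hx⟩

lemma wall_pos (p : unitInterval) (ν : Measure ℝ) [IsProbabilityMeasure ν]
    (hp : 0 < (p : ℝ)) (M : ℕ) : 0 < envLaw d p ν (Wall d M) := by
  classical
  have hsub : {ω : Env d | ∀ x ∈ (Finset.Icc (fun _ => -((M : ℤ) + 1)) (fun _ => (M : ℤ) + 1) :
      Finset (Site d)), IsSeed ω x} ⊆ Wall d M := by
    intro ω hω x hx0 hx
    refine hω x (Finset.mem_Icc.mpr ⟨fun i => ?_, fun i => ?_⟩)
    · show -((M : ℤ) + 1) ≤ x i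
      by_cases hi : i = 0
      · subst hi; rw [hx0]; omega
      · have := abs_le.mp (hx i hi)
        omega
    · show x i ≤ (M : ℤ) + 1
      by_cases hi : i = 0
      · subst hi; rw [hx0]; omega
      · have := abs_le.mp (hx i hi)
        omega
  refine lt_of_lt_of_le ?_ (measure_mono hsub)
  rw [prob_seeds]
  have : 0 < ENNReal.ofReal (p : ℝ) := ENNReal.ofReal_pos.mpr hp
  exact ENNReal.pow_pos this _

lemma meas_short (κ : ℝ) (n : ℕ) : MeasurableSet[sig (S2 d)] (Short κ n : Set (Env d)) := by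
  have : (Short κ n : Set (Env d)) = ⋃ (w : List (Fin d × Bool)),
      {ω : Env d | Good n w ∧ (w.length : ℝ) ≤ κ * n ∧
        ∀ x ∈ bp (ax n : Site d) w, ¬ IsSeed ω x} := by
    ext ω
    simp only [Set.mem_iUnion]
    rfl
  rw [this]
  refine MeasurableSet.iUnion (fun w => ?_)
  by_cases h : Good n w ∧ (w.length : ℝ) ≤ κ * n
  · have : {ω : Env d | Good n w ∧ (w.length : ℝ) ≤ κ * n ∧
        ∀ x ∈ bp (ax n : Site d) w, ¬ IsSeed ω x} =
        ⋂ (x : Site d), ⋂ (_ : x ∈ bp (ax n : Site d) w), {ω : Env d | IsSeed ω x}ᶜ := by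
      ext ω
      simp only [Set.mem_iInter, Set.mem_compl_iff]
      constructor
      · rintro ⟨-, -, h3⟩
        exact h3
      · intro h3
        exact ⟨h.1, h.2, h3⟩
    rw [this]
    refine MeasurableSet.iInter (fun x => MeasurableSet.iInter (fun hx => ?_))
    exact (meas_seed (S := S2 d) ⟨x, rfl, h.1.2.1 x hx⟩).compl
  · have : {ω : Env d | Good n w ∧ (w.length : ℝ) ≤ κ * n ∧
        ∀ x ∈ bp (ax n : Site d) w, ¬ IsSeed ω x} = ∅ := by
      ext ω
      simp only [Set.mem_empty_iff_false, iff_false]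
      rintro ⟨h1, h2, -⟩
      exact h ⟨h1, h2⟩
    rw [this]
    exact @MeasurableSet.empty _ (sig (S2 d))

/-- No short seedless ends from `N` on. -/
def Far (d : ℕ) [NeZero d] (κ : ℝ) (N : ℕ) : Set (Env d) :=
  {ω | ∀ n, N ≤ n → ω ∉ (Short κ n : Set (Env d))}

lemma meas_far (κ : ℝ) (N : ℕ) : MeasurableSet[sig (S2 d)] (Far d κ N) := by
  have : (Far d κ N) = ⋂ (n : ℕ), ⋂ (_ : N ≤ n), (Short κ n : Set (Env d))ᶜ := by
    ext ω
    simp only [Set.mem_iInter, Set.mem_compl_iff]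
    rfl
  rw [this]
  exact MeasurableSet.iInter (fun n => MeasurableSet.iInter (fun _ => (meas_short κ n).compl))

/-- The times on the axis grow linearly. -/
def Fast (d : ℕ) [NeZero d] (lam κ : ℝ) (K : ℕ) : Set (Env d) :=
  {ω | ∀ n : ℕ, axT lam ω n ≤ κ * n + K}

lemma meas_fast (lam κ : ℝ) (K : ℕ) : MeasurableSet[sig (S3 d)] (Fast d lam κ K) := by
  have : (Fast d lam κ K) = ⋂ (n : ℕ), {ω : Env d | axT lam ω n ≤ κ * n + K} := by
    ext ω
    simp only [Set.mem_iInter]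
    rfl
  rw [this]
  refine MeasurableSet.iInter (fun n => ?_)
  have h1 : Measurable[sig (S3 d)] (fun ω : Env d => ω (Sum.inr (s(0, ax 1), false))) :=
    meas_coord (Or.inl rfl)
  have h2 : ∀ k : ℕ, Measurable[sig (S3 d)]
      (fun ω : Env d => ω (Sum.inr (s(ax k, ax (k + 1)), true))) :=
    fun k => meas_coord (Or.inr ⟨k, rfl⟩)
  have h3 : Measurable[sig (S3 d)] (fun ω : Env d =>
      ∑ k ∈ Finset.range n, ω (Sum.inr (s(ax k, ax (k + 1)), true))) :=
    Finset.measurable_sum _ (fun k _ => h2 k)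
  have h4 : Measurable[sig (S3 d)] (fun ω : Env d => axT lam ω n) :=
    h1.add (h3.div_const lam)
  exact h4 measurableSet_Iic

lemma disj12 : Disjoint (S1 d) (S2 d) := by
  rw [Set.disjoint_left]
  rintro k ⟨x, hx, hx0⟩ ⟨y, hy, hy0⟩
  rw [hx] at hy
  have := Sum.inl_injective hy
  subst this
  omega

lemma disj13 : Disjoint (S1 d) (S3 d) := by
  rw [Set.disjoint_left]
  rintro k ⟨x, hx, hx0⟩ (h | ⟨j, h⟩)
  · rw [hx] at h; cases h
  · rw [hx] at h; cases h

lemma disj23 : Disjoint (S2 d) (S3 d) := by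
  rw [Set.disjoint_left]
  rintro k ⟨x, hx, hx0⟩ (h | ⟨j, h⟩)
  · rw [hx] at h; cases h
  · rw [hx] at h; cases h

lemma disj1B : Disjoint (S1 d) (SB d) := by
  rw [Set.disjoint_left]
  rintro k ⟨x, hx, hx0⟩ (⟨y, hy, hy0⟩ | ⟨y, z, h, -⟩)
  · rw [hx] at hy
    have := Sum.inl_injective hy
    subst this
    have := hy0 0
    omega
  · rw [hx] at h; cases h

lemma disj2B : Disjoint (S2 d) (SB d) := by
  rw [Set.disjoint_left]
  rintro k ⟨x, hx, hx0⟩ (⟨y, hy, hy0⟩ | ⟨y, z, h, -⟩)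
  · rw [hx] at hy
    have := Sum.inl_injective hy
    subst this
    have := hy0 0
    omega
  · rw [hx] at h; cases h

lemma disj3B : Disjoint (S3 d) (SB d) := by
  rw [Set.disjoint_left]
  rintro k (h | ⟨j, h⟩) (⟨y, hy, hy0⟩ | ⟨y, z, hyz, hy0, hz0⟩)
  · rw [h] at hy; cases hy
  · rw [h] at hyz
    have h1 := (Prod.ext_iff.mp (Sum.inr_injective hyz)).1
    have hax : (ax 1 : Site d) 0 = -1 := by simp [ax]
    rcases Sym2.eq_iff.mp h1 with ⟨-, h3⟩ | ⟨-, h3⟩
    · have := hz0 0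
      rw [← h3, hax] at this
      omega
    · have := hy0 0
      rw [← h3, hax] at this
      omega
  · rw [h] at hy; cases hy
  · rw [h] at hyz
    have h1 := (Prod.ext_iff.mp (Sum.inr_injective hyz)).2
    exact absurd h1 (by simp)

/-- The four events are independent. -/
lemma prob_inter (p : unitInterval) (ν : Measure ℝ) [IsProbabilityMeasure ν]
    {A1 A2 A3 B : Set (Env d)} (h1 : MeasurableSet[sig (S1 d)] A1)
    (h2 : MeasurableSet[sig (S2 d)] A2) (h3 : MeasurableSet[sig (S3 d)] A3)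
    (hB : MeasurableSet[sig (SB d)] B) :
    envLaw d p ν (A1 ∩ (A2 ∩ (A3 ∩ B))) =
      envLaw d p ν A1 * (envLaw d p ν A2 * (envLaw d p ν A3 * envLaw d p ν B)) := by
  have e3 : envLaw d p ν (A3 ∩ B) = envLaw d p ν A3 * envLaw d p ν B :=
    indep_apply p ν disj3B h3 hB
  have m3 : MeasurableSet[sig (S3 d ∪ SB d)] (A3 ∩ B) :=
    (sig_mono Set.subset_union_left _ h3).inter (sig_mono Set.subset_union_right _ hB)
  have e2 : envLaw d p ν (A2 ∩ (A3 ∩ B)) = envLaw d p ν A2 * envLaw d p ν (A3 ∩ B) :=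
    indep_apply p ν (Set.disjoint_union_right.mpr ⟨disj23, disj2B⟩) h2 m3
  have m2 : MeasurableSet[sig (S2 d ∪ (S3 d ∪ SB d))] (A2 ∩ (A3 ∩ B)) :=
    (sig_mono Set.subset_union_left _ h2).inter (sig_mono Set.subset_union_right _ m3)
  have e1 : envLaw d p ν (A1 ∩ (A2 ∩ (A3 ∩ B))) =
      envLaw d p ν A1 * envLaw d p ν (A2 ∩ (A3 ∩ B)) :=
    indep_apply p ν (Set.disjoint_union_right.mpr
      ⟨disj12, Set.disjoint_union_right.mpr ⟨disj13, disj1B⟩⟩) h1 m2
  rw [e1, e2, e3]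

/-- Coexistence. -/
theorem coexistence (p : unitInterval) (hp : 0 < (p : ℝ)) (ν : Measure ℝ)
    [IsProbabilityMeasure ν] (hν : ∀ᵐ t ∂ν, 1 ≤ t) (hint : Integrable (fun t => t) ν)
    (hθ : 0 < envLaw d p ν {ω | OPerc ω}) (lam s : ℝ) (hl0 : 0 < lam) (hl1 : lam < 1)
    (hs0 : 0 < s) (hs1 : s < 1)
    (hcond : (1 - (p : ℝ)) * (1 + (2 * (d : ℝ) - 1) * s) < s ^ (1 - lam / ∫ t : ℝ, t ∂ν)) :
    ∃ A : Set (Env d), MeasurableSet A ∧ 0 < envLaw d p ν A ∧ ∀ ω ∈ A,
      (∃ T c, Evolution lam ω T c) ∧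
      ∀ T c, Evolution lam ω T c → Survives c false ∧ Survives c true := by
  set m : ℝ := ∫ t : ℝ, t ∂ν with hm
  have hm1 : 1 ≤ m := by
    have h1 : ∫ _t : ℝ, (1 : ℝ) ∂ν ≤ ∫ t : ℝ, t ∂ν :=
      integral_mono_ae (integrable_const _) hint hν
    simpa using h1
  have hm0 : 0 < m := by linarith
  set κ0 : ℝ := m / lam with hκ0
  have hκ01 : 1 < κ0 := by
    rw [hκ0, lt_div_iff₀ hl0]
    linarith
  have hκ0inv : 1 / κ0 = lam / m := by
    rw [hκ0, one_div_div]
  -- a slightly larger slope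
  obtain ⟨κ2, hκ2, hcond2⟩ : ∃ κ2, κ0 < κ2 ∧
      (1 - (p : ℝ)) * (1 + (2 * (d : ℝ) - 1) * s) < s ^ (1 - 1 / κ2) := by
    have hcont : ContinuousAt (fun κ : ℝ => s ^ (1 - 1 / κ)) κ0 := by
      have h1 : ContinuousAt (fun κ : ℝ => 1 - 1 / κ) κ0 := by
        refine ContinuousAt.sub continuousAt_const ?_
        exact ContinuousAt.div continuousAt_const continuousAt_id (by linarith)
      have h2 : ContinuousAt (fun y : ℝ => s ^ y) (1 - 1 / κ0) :=
        (Real.continuous_const_rpow hs0.ne').continuousAt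
      exact ContinuousAt.comp (f := fun κ : ℝ => 1 - 1 / κ) (g := fun y : ℝ => s ^ y) h2 h1
    have hev : ∀ᶠ κ in 𝓝 κ0, (1 - (p : ℝ)) * (1 + (2 * (d : ℝ) - 1) * s) < s ^ (1 - 1 / κ) := by
      refine hcont.eventually (lt_mem_nhds ?_)
      show _ < s ^ (1 - 1 / κ0)
      rw [hκ0inv]
      exact hcond
    obtain ⟨κ2, h1, h2⟩ := ((hev.filter_mono nhdsWithin_le_nhds).and
      (self_mem_nhdsWithin : Set.Ioi κ0 ∈ 𝓝[>] κ0)).exists
    exact ⟨κ2, h2, h1⟩
  set κ1 : ℝ := (κ0 + κ2) / 2 with hκ1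
  have h01 : κ0 < κ1 := by rw [hκ1]; linarith
  have h12 : κ1 < κ2 := by rw [hκ1]; linarith
  have hslope : m < κ1 * lam := by
    have : κ0 * lam = m := by rw [hκ0]; field_simp
    calc m = κ0 * lam := this.symm
      _ < κ1 * lam := mul_lt_mul_of_pos_right h01 hl0
  obtain ⟨K, hK⟩ := exists_axis (d := d) p ν hint hl0 hslope
  obtain ⟨N0, hN0⟩ := exists_nat_ge ((K : ℝ) / (κ2 - κ1))
  obtain ⟨N, hNN, hN⟩ := exists_start (d := d) p ν hs0 hs1 (by linarith : 1 < κ2) hcond2 N0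
  obtain ⟨M, hM⟩ := exists_nat_ge (κ1 * N + K)
  have hpos : 0 < envLaw d p ν (Wall d M ∩ (Far d κ2 N ∩ (Fast d lam κ1 K ∩
      {ω : Env d | OPerc ω}))) := by
    rw [prob_inter p ν (meas_wall M) (meas_far κ2 N) (meas_fast lam κ1 K) meas_operc]
    exact ENNReal.mul_pos (wall_pos p ν hp M).ne'
      (ENNReal.mul_pos hN.ne' (ENNReal.mul_pos hK.ne' hθ.ne').ne').ne'
  refine ⟨(Wall d M ∩ (Far d κ2 N ∩ (Fast d lam κ1 K ∩ {ω : Env d | OPerc ω}))) ∩ Slow d,
    ?_, ?_, ?_⟩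
  · exact ((sig_le _ _ (meas_wall M)).inter ((sig_le _ _ (meas_far κ2 N)).inter
      ((sig_le _ _ (meas_fast lam κ1 K)).inter (sig_le _ _ meas_operc)))).inter meas_slow
  · have hcs : envLaw d p ν (Slow d)ᶜ = 0 := ae_slow p ν hν
    rw [measure_inter_conull hcs]
    exact hpos
  · rintro ω ⟨⟨hW, hF, hFa, hO⟩, hS⟩
    refine ⟨exists_evolution hl0 hl1.le hS, fun T c hE => ⟨survives_false hE hl0 hl1 hS hO, ?_⟩⟩
    refine survives_true_of_axis (fun n => (red_axis hE hl0 hl1 hS M N hW ?_ ?_ n).1)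
    · intro n hn
      have h1 := hFa n
      have h2 : (n : ℝ) ≤ N := by exact_mod_cast hn.le
      have h3 : κ1 * n ≤ κ1 * N := mul_le_mul_of_nonneg_left h2 (by linarith)
      have h4 : (0 : ℝ) ≤ n := Nat.cast_nonneg n
      have h5 : (0 : ℝ) ≤ M := Nat.cast_nonneg M
      linarith
    · intro n hn w hw hlen
      have h1 := hFa n
      have h2 : (N0 : ℝ) ≤ n := by exact_mod_cast le_trans hNN hn
      have h3 : (K : ℝ) ≤ (κ2 - κ1) * n := by
        have h4 : (K : ℝ) / (κ2 - κ1) ≤ n := le_trans hN0 h2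
        rw [div_le_iff₀ (by linarith)] at h4
        linarith
      have h4 : (w.length : ℝ) ≤ κ2 * n := by
        have : (κ2 - κ1) * n = κ2 * n - κ1 * n := by ring
        linarith
      by_contra hcon
      push Not at hcon
      exact hF n hn ⟨w, hw, h4, hcon⟩

end Pool.Agent.FPH
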