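import Pool.Agent.FPH.Prob

/-!
The path counting estimate.
-/

open MeasureTheory ProbabilityTheory

namespace Pool.Agent.FPH

variable {d : ℕ} [NeZero d]

/-- Weight of a letter: `1` for the step `- e_1`, `s` for the others. -/
noncomputable def wt (s : ℝ) (x : Fin d × Bool) : ℝ := if x = (0, false) then 1 else s

lemma sum_wt (s : ℝ) : ∑ x : Fin d × Bool, wt s x = 1 + (2 * (d : ℝ) - 1) * s := by
  have h : ∀ x : Fin d × Bool, wt s x = s + (if x = (0, false) then 1 - s else 0) := by
    intro x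
    unfold wt
    split_ifs <;> ring
  simp only [h, Finset.sum_add_distrib, Finset.sum_const, Finset.card_univ, Fintype.card_prod,
    Fintype.card_fin, Fintype.card_bool, Finset.sum_ite_eq', Finset.mem_univ, if_true,
    nsmul_eq_mul]
  push_cast
  ring

lemma prod_wt (s : ℝ) (l : List (Fin d × Bool)) :
    (l.map (wt s)).prod * s ^ (l.count (0, false)) = s ^ l.length := by
  induction l with
  | nil => simp
  | cons x l ih =>
    rw [List.map_cons, List.prod_cons, List.count_cons, List.length_cons]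
    by_cases hx : x = (0, false)
    · subst hx
      simp only [beq_self_eq_true, if_true, wt, one_mul]
      rw [pow_succ, ← mul_assoc, ih, pow_succ]
    · have hbeq : (x == (0, false)) = false := by simpa using hx
      rw [hbeq]
      simp only [Bool.false_eq_true, if_false, add_zero, wt, if_neg hx]
      have : s * (List.map (wt s) l).prod * s ^ List.count (0, false) l =
          s * ((List.map (wt s) l).prod * s ^ List.count (0, false) l) := by ring
      rw [pow_succ, ← ih]
      unfold wt at *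
      ring

omit [NeZero d] in
lemma length_bp (v : Site d) (w : List (Fin d × Bool)) : (bp v w).length = w.length := by
  induction w generalizing v with
  | nil => rfl
  | cons s w ih => simp [bp, ih]

/-- The word `w` is the end of a seedless path to `ax n`. -/
def Open (n : ℕ) (w : List (Fin d × Bool)) : Set (Env d) :=
  {ω | Good n w ∧ ∀ x ∈ bp (ax n : Site d) w, ¬ IsSeed ω x}

lemma prob_open (p : unitInterval) (ν : Measure ℝ) [IsProbabilityMeasure ν] {s : ℝ}
    (hs0 : 0 < s) (hs1 : s < 1) (n : ℕ) (hn : 1 ≤ n) (w : List (Fin d × Bool)) :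
    envLaw d p ν (Open n w) ≤ if n ≤ w.length + 1 then
      ENNReal.ofReal (s ^ (n - 1) * ((1 - (p : ℝ)) / s) ^ w.length * (w.map (wt s)).prod) else 0 := by
  classical
  by_cases hG : Good n w
  · obtain ⟨h1, h2, h3⟩ := id hG
    have hcl : w.count (0, false) ≤ w.length := List.count_le_length
    rw [if_pos (by omega)]
    have hsub : Open n w ⊆ {ω : Env d | ∀ x ∈ (bp (ax n : Site d) w).toFinset, ¬ IsSeed ω x} := by
      intro ω hω x hx
      exact hω.2 x (List.mem_toFinset.mp hx)
    refine le_trans (measure_mono hsub) ?_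
    rw [prob_no_seeds, List.toFinset_card_of_nodup h1, length_bp,
      ← ENNReal.ofReal_pow (by linarith [p.2.2])]
    refine ENNReal.ofReal_le_ofReal ?_
    -- s^(n-1) * (q/s)^L * prod = q^L * s^(n-1) * s^(-L) * prod, and s^(n-1) prod >= s^L ...
    have hp := prod_wt s w
    have hcpos : 0 < s ^ (w.count (0, false)) := pow_pos hs0 _
    have hge : s ^ w.length ≤ s ^ (n - 1) * (w.map (wt s)).prod := by
      rw [← hp, mul_comm (s ^ (n - 1))]
      have hprod : 0 ≤ (w.map (wt s)).prod := by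
        have : 0 < (w.map (wt s)).prod * s ^ (w.count (0, false)) := by
          rw [hp]; exact pow_pos hs0 _
        exact (pos_of_mul_pos_left this hcpos.le).le
      refine mul_le_mul_of_nonneg_left ?_ hprod
      exact pow_le_pow_of_le_one hs0.le hs1.le (by omega)
    have hq : (0 : ℝ) ≤ 1 - p := by linarith [p.2.2]
    have hsL : 0 < s ^ w.length := pow_pos hs0 _
    calc (1 - (p : ℝ)) ^ w.length
        = ((1 - (p : ℝ)) ^ w.length / s ^ w.length) * s ^ w.length := by
          field_simp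
      _ ≤ ((1 - (p : ℝ)) ^ w.length / s ^ w.length) * (s ^ (n - 1) * (w.map (wt s)).prod) := by
          refine mul_le_mul_of_nonneg_left hge ?_
          positivity
      _ = s ^ (n - 1) * ((1 - (p : ℝ)) / s) ^ w.length * (w.map (wt s)).prod := by
          rw [div_pow]; ring
  · have : Open n w = ∅ := by
      ext ω
      simp [Open, hG]
    rw [this, measure_empty]
    exact zero_le

/-- There is a short seedless end of a path to `ax n`. -/
def Short (κ : ℝ) (n : ℕ) : Set (Env d) :=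
  {ω | ∃ w : List (Fin d × Bool), Good n w ∧ (w.length : ℝ) ≤ κ * n ∧
    ∀ x ∈ bp (ax n : Site d) w, ¬ IsSeed ω x}

lemma prob_short (p : unitInterval) (ν : Measure ℝ) [IsProbabilityMeasure ν] {s κ : ℝ}
    (hs0 : 0 < s) (hs1 : s < 1) (hκ : 0 ≤ κ) (n : ℕ) (hn : 1 ≤ n) :
    envLaw d p ν (Short κ n) ≤ ENNReal.ofReal ((κ * n + 1) * (s⁻¹ *
      (s * (max 1 ((1 - (p : ℝ)) * (1 + (2 * (d : ℝ) - 1) * s) / s)) ^ κ) ^ n)) := by
  classical
  set ρ : ℝ := max 1 ((1 - (p : ℝ)) * (1 + (2 * (d : ℝ) - 1) * s) / s) with hρ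
  have hρ1 : 1 ≤ ρ := le_max_left _ _
  set K : ℕ := ⌊κ * n⌋₊ with hK
  have hκn : 0 ≤ κ * n := by positivity
  have hq : (0 : ℝ) ≤ 1 - p := by linarith [p.2.2]
  have hd1 : (1 : ℝ) ≤ d := by
    have : 1 ≤ d := Nat.one_le_iff_ne_zero.mpr (NeZero.ne d)
    exact_mod_cast this
  have ha : 0 ≤ 1 + (2 * (d : ℝ) - 1) * s := by
    have : 0 ≤ (2 * (d : ℝ) - 1) * s := mul_nonneg (by linarith) hs0.le
    linarith
  have hsub : (Short κ n : Set (Env d)) ⊆
      ⋃ L ∈ Finset.range (K + 1), ⋃ w ∈ (Finset.univ : Finset (Fin L → Fin d × Bool)),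
        Open n (List.ofFn w) := by
    rintro ω ⟨w, hw1, hw2, hw3⟩
    have hL : w.length ≤ K := Nat.le_floor hw2
    simp only [Set.mem_iUnion]
    refine ⟨w.length, Finset.mem_range.mpr (by omega), w.get, Finset.mem_univ _, ?_⟩
    rw [List.ofFn_get]
    exact ⟨hw1, hw3⟩
  refine le_trans (measure_mono hsub) ?_
  refine le_trans (measure_biUnion_finset_le _ _) ?_
  have hterm : ∀ L ∈ Finset.range (K + 1),
      envLaw d p ν (⋃ w ∈ (Finset.univ : Finset (Fin L → Fin d × Bool)), Open n (List.ofFn w)) ≤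
      ENNReal.ofReal (s⁻¹ * (s * ρ ^ κ) ^ n) := by
    intro L hL
    have hLK : L ≤ K := by
      have := Finset.mem_range.mp hL; omega
    refine le_trans (measure_biUnion_finset_le _ _) ?_
    by_cases hnL : n ≤ L + 1
    · have h1 : ∀ w ∈ (Finset.univ : Finset (Fin L → Fin d × Bool)),
          envLaw d p ν (Open n (List.ofFn w)) ≤
          ENNReal.ofReal (s ^ (n - 1) * ((1 - (p : ℝ)) / s) ^ L * ∏ j, wt s (w j)) := by
        intro w _
        have h := prob_open p ν hs0 hs1 n hn (List.ofFn w)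
        rw [List.length_ofFn, if_pos hnL, List.map_ofFn, List.prod_ofFn] at h
        exact h
      refine le_trans (Finset.sum_le_sum h1) ?_
      have hwt : ∀ x : Fin d × Bool, 0 ≤ wt s x := by
        intro x; unfold wt; split_ifs <;> linarith
      rw [← ENNReal.ofReal_sum_of_nonneg (fun w _ => by
        have : 0 ≤ ∏ j, wt s (w j) := Finset.prod_nonneg (fun _ _ => hwt _)
        positivity)]
      refine ENNReal.ofReal_le_ofReal ?_
      rw [← Finset.mul_sum, ← Fintype.sum_pow, sum_wt]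
      have e1 : s ^ (n - 1) = s⁻¹ * s ^ n := by
        obtain ⟨m, rfl⟩ : ∃ m, n = m + 1 := ⟨n - 1, by omega⟩
        rw [Nat.add_sub_cancel, pow_succ]
        field_simp
      rw [e1]
      have e2 : (1 - (p : ℝ)) / s * (1 + (2 * (d : ℝ) - 1) * s) ≤ ρ := by
        rw [hρ]
        refine le_trans (le_of_eq ?_) (le_max_right _ _)
        ring
      have e3 : ((1 - (p : ℝ)) / s * (1 + (2 * (d : ℝ) - 1) * s)) ^ L ≤ (ρ ^ κ) ^ n := by
        refine le_trans (pow_le_pow_left₀ (by positivity) e2 L) ?_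
        rw [← Real.rpow_natCast ρ L, ← Real.rpow_natCast (ρ ^ κ) n,
          ← Real.rpow_mul (by linarith)]
        refine Real.rpow_le_rpow_of_exponent_le hρ1 ?_
        calc (L : ℝ) ≤ K := by exact_mod_cast hLK
          _ ≤ κ * n := Nat.floor_le hκn
      calc s⁻¹ * s ^ n * ((1 - (p : ℝ)) / s) ^ L * (1 + (2 * (d : ℝ) - 1) * s) ^ L
          = s⁻¹ * (s ^ n * ((1 - (p : ℝ)) / s * (1 + (2 * (d : ℝ) - 1) * s)) ^ L) := by
            rw [mul_pow ((1 - (p : ℝ)) / s)]; ring
        _ ≤ s⁻¹ * (s ^ n * (ρ ^ κ) ^ n) := by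
            refine mul_le_mul_of_nonneg_left ?_ (inv_nonneg.mpr hs0.le)
            exact mul_le_mul_of_nonneg_left e3 (pow_nonneg hs0.le n)
        _ = s⁻¹ * (s * ρ ^ κ) ^ n := by rw [mul_pow]
    · have h1 : ∀ w ∈ (Finset.univ : Finset (Fin L → Fin d × Bool)),
          envLaw d p ν (Open n (List.ofFn w)) ≤ 0 := by
        intro w _
        have h := prob_open p ν hs0 hs1 n hn (List.ofFn w)
        rw [List.length_ofFn, if_neg hnL] at h
        exact h
      refine le_trans (Finset.sum_le_sum h1) ?_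
      simp
  refine le_trans (Finset.sum_le_sum hterm) ?_
  rw [Finset.sum_const, Finset.card_range, nsmul_eq_mul]
  have h2 : (0 : ℝ) ≤ s⁻¹ * (s * ρ ^ κ) ^ n := by positivity
  rw [← ENNReal.ofReal_natCast, ← ENNReal.ofReal_mul (by positivity)]
  refine ENNReal.ofReal_le_ofReal ?_
  refine mul_le_mul_of_nonneg_right ?_ h2
  push_cast
  have := Nat.floor_le hκn
  linarith

/-- Short seedless ends are rare far away. -/
lemma exists_start (p : unitInterval) (ν : Measure ℝ) [IsProbabilityMeasure ν] {s κ : ℝ}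
    (hs0 : 0 < s) (hs1 : s < 1) (hκ : 1 < κ)
    (hcond : (1 - (p : ℝ)) * (1 + (2 * (d : ℝ) - 1) * s) < s ^ (1 - 1 / κ)) (N0 : ℕ) :
    ∃ N, N0 ≤ N ∧ 0 < envLaw d p ν {ω | ∀ n, N ≤ n → ω ∉ (Short κ n : Set (Env d))} := by
  classical
  set ρ : ℝ := max 1 ((1 - (p : ℝ)) * (1 + (2 * (d : ℝ) - 1) * s) / s) with hρ
  have hρ1 : 1 ≤ ρ := le_max_left _ _
  have hκ0 : 0 < κ := by linarith
  set r : ℝ := s * ρ ^ κ with hr
  have hr0 : 0 < r := by positivity
  have hr1 : r < 1 := by
    rcases max_choice (1 : ℝ) ((1 - (p : ℝ)) * (1 + (2 * (d : ℝ) - 1) * s) / s) with h | h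
    · rw [hr, hρ, h, Real.one_rpow, mul_one]; exact hs1
    · have hlt : ρ < s ^ (-(1 / κ)) := by
        rw [hρ, h, div_lt_iff₀ hs0]
        refine lt_of_lt_of_eq hcond ?_
        rw [sub_eq_add_neg, Real.rpow_add hs0, Real.rpow_one]
        ring
      have : ρ ^ κ < s⁻¹ := by
        have h1 : ρ ^ κ < (s ^ (-(1 / κ))) ^ κ :=
          Real.rpow_lt_rpow (by linarith) hlt hκ0
        rw [← Real.rpow_mul hs0.le] at h1
        have h2 : -(1 / κ) * κ = -1 := by field_simp
        rw [h2, Real.rpow_neg_one] at h1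
        exact h1
      rw [hr]
      calc s * ρ ^ κ < s * s⁻¹ := mul_lt_mul_of_pos_left this hs0
        _ = 1 := mul_inv_cancel₀ hs0.ne'
  -- summability
  have hsum : Summable (fun n : ℕ => (κ * n + 1) * (s⁻¹ * r ^ n)) := by
    have h1 : Summable (fun n : ℕ => (n : ℝ) * r ^ n) := by
      have := summable_pow_mul_geometric_of_norm_lt_one (R := ℝ) 1
        (r := r) (by rw [Real.norm_of_nonneg hr0.le]; exact hr1)
      simpa using this
    have h2 : Summable (fun n : ℕ => r ^ n) := summable_geometric_of_lt_one hr0.le hr1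
    have h3 := (h1.mul_left (κ * s⁻¹)).add (h2.mul_left s⁻¹)
    refine h3.congr (fun n => ?_)
    ring
  have hfin : ∑' n : ℕ, ENNReal.ofReal ((κ * n + 1) * (s⁻¹ * r ^ n)) ≠ ⊤ := by
    rw [← ENNReal.ofReal_tsum_of_nonneg (fun n => by positivity) hsum]
    exact ENNReal.ofReal_ne_top
  have htend := ENNReal.tendsto_sum_nat_add _ hfin
  have hev : ∀ᶠ i in Filter.atTop,
      ∑' k : ℕ, ENNReal.ofReal ((κ * ((k + i : ℕ) : ℝ) + 1) * (s⁻¹ * r ^ (k + i))) < 1 :=
    htend.eventually_lt_const (by norm_num)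
  obtain ⟨N, hN, hN0⟩ := (hev.and (Filter.eventually_ge_atTop (max N0 1))).exists
  refine ⟨N, le_trans (le_max_left _ _) hN0, ?_⟩
  have hN1 : 1 ≤ N := le_trans (le_max_right _ _) hN0
  have hcompl : {ω | ∀ n, N ≤ n → ω ∉ (Short κ n : Set (Env d))} =
      (⋃ k : ℕ, (Short κ (k + N) : Set (Env d)))ᶜ := by
    ext ω
    simp only [Set.mem_compl_iff, Set.mem_iUnion, not_exists]
    constructor
    · intro h k
      exact h (k + N) (by omega)
    · intro h n hn
      obtain ⟨k, rfl⟩ : ∃ k, n = k + N := ⟨n - N, by omega⟩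
      exact h k
  have hle : envLaw d p ν (⋃ k : ℕ, (Short κ (k + N) : Set (Env d))) < 1 := by
    refine lt_of_le_of_lt (measure_iUnion_le _) ?_
    refine lt_of_le_of_lt (ENNReal.tsum_le_tsum (fun k => ?_)) hN
    exact prob_short p ν hs0 hs1 hκ0.le (k + N) (by omega)
  rw [hcompl]
  by_contra hcon
  have h0 : envLaw d p ν (⋃ k : ℕ, (Short κ (k + N) : Set (Env d)))ᶜ = 0 := by
    simpa using hcon
  have h1 : envLaw d p ν Set.univ ≤
      envLaw d p ν (⋃ k : ℕ, (Short κ (k + N) : Set (Env d))) +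
      envLaw d p ν (⋃ k : ℕ, (Short κ (k + N) : Set (Env d)))ᶜ := by
    rw [← Set.union_compl_self (⋃ k : ℕ, (Short κ (k + N) : Set (Env d)))]
    exact measure_union_le _ _
  rw [h0, add_zero, measure_univ] at h1
  exact absurd (lt_of_le_of_lt h1 hle) (lt_irrefl _)

end Pool.Agent.FPH
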