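import Pool.Agent.FPH.Red

/-!
The law of the environment: coordinates, independence, seeds.
-/

open MeasureTheory ProbabilityTheory

namespace Pool.Agent.FPH

variable {d : ℕ} (p : unitInterval) (ν : Measure ℝ) [IsProbabilityMeasure ν]

/-- The sigma-algebra of the coordinates in `S`. -/
@[reducible] def sig (S : Set (Idx d)) : MeasurableSpace (Env d) :=
  ⨆ k ∈ S, MeasurableSpace.comap (fun ω : Env d => ω k) inferInstance

lemma sig_le (S : Set (Idx d)) : sig S ≤ (inferInstance : MeasurableSpace (Env d)) := by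
  refine iSup₂_le (fun k _ => ?_)
  exact (measurable_pi_apply k).comap_le

lemma sig_mono {S T : Set (Idx d)} (h : S ⊆ T) : sig S ≤ sig T := by
  refine iSup₂_le (fun k hk => ?_)
  exact le_iSup₂ (f := fun k (_ : k ∈ T) =>
    MeasurableSpace.comap (fun ω : Env d => ω k) inferInstance) k (h hk)

lemma meas_coord {S : Set (Idx d)} {k : Idx d} (hk : k ∈ S) :
    Measurable[sig S] (fun ω : Env d => ω k) := by
  have h1 : Measurable[MeasurableSpace.comap (fun ω : Env d => ω k) inferInstance]
      (fun ω : Env d => ω k) := comap_measurable _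
  refine h1.mono ?_ le_rfl
  exact le_iSup₂ (f := fun k (_ : k ∈ S) =>
    MeasurableSpace.comap (fun ω : Env d => ω k) inferInstance) k hk

lemma indep_sig {S T : Set (Idx d)} (h : Disjoint S T) :
    Indep (sig S) (sig T) (envLaw d p ν) := by
  refine indep_iSup_of_disjoint (fun k => (measurable_pi_apply k).comap_le) ?_ h
  have h1 : iIndepFun (fun (k : Idx d) (ω : Env d) => (fun t : ℝ => t) (ω k)) (envLaw d p ν) :=
    iIndepFun_infinitePi (P := law d p ν) (X := fun _ t => t) (fun _ => measurable_id)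
  exact h1

lemma indep_apply {S T : Set (Idx d)} (h : Disjoint S T) {A B : Set (Env d)}
    (hA : MeasurableSet[sig S] A) (hB : MeasurableSet[sig T] B) :
    envLaw d p ν (A ∩ B) = envLaw d p ν A * envLaw d p ν B :=
  (Indep_iff _ _ _).1 (indep_sig p ν h) A B hA hB

lemma seedLaw_one : seedLaw p {1} = ENNReal.ofReal p := by
  simp only [seedLaw, Measure.add_apply, Measure.smul_apply, smul_eq_mul]
  rw [Measure.dirac_apply' _ (measurableSet_singleton _),
    Measure.dirac_apply' _ (measurableSet_singleton _)]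
  simp

lemma seedLaw_compl : seedLaw p {1}ᶜ = ENNReal.ofReal (1 - p) := by
  simp only [seedLaw, Measure.add_apply, Measure.smul_apply, smul_eq_mul]
  rw [Measure.dirac_apply' _ (measurableSet_singleton _).compl,
    Measure.dirac_apply' _ (measurableSet_singleton _).compl]
  simp

lemma meas_seed {S : Set (Idx d)} {x : Site d} (hx : Sum.inl x ∈ S) :
    MeasurableSet[sig S] {ω : Env d | IsSeed ω x} :=
  (meas_coord hx) (measurableSet_singleton (1 : ℝ))

lemma prob_seeds (F : Finset (Site d)) :
    envLaw d p ν {ω | ∀ x ∈ F, IsSeed ω x} = ENNReal.ofReal p ^ F.card := by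
  classical
  have h : {ω : Env d | ∀ x ∈ F, IsSeed ω x} =
      Set.pi (↑(F.map ⟨Sum.inl, Sum.inl_injective⟩ : Finset (Idx d)) : Set (Idx d))
        (fun _ => ({1} : Set ℝ)) := by
    ext ω
    simp [Set.mem_pi, IsSeed]
  rw [h]
  unfold envLaw
  rw [Measure.infinitePi_pi _ (fun _ _ => measurableSet_singleton _), Finset.prod_map]
  have : ∀ x ∈ F, law d p ν ((⟨Sum.inl, Sum.inl_injective⟩ : Site d ↪ Idx d) x) {1} =
      ENNReal.ofReal p := fun x _ => seedLaw_one p
  rw [Finset.prod_congr rfl this, Finset.prod_const]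

lemma prob_no_seeds (F : Finset (Site d)) :
    envLaw d p ν {ω | ∀ x ∈ F, ¬ IsSeed ω x} = ENNReal.ofReal (1 - p) ^ F.card := by
  classical
  have h : {ω : Env d | ∀ x ∈ F, ¬ IsSeed ω x} =
      Set.pi (↑(F.map ⟨Sum.inl, Sum.inl_injective⟩ : Finset (Idx d)) : Set (Idx d))
        (fun _ => ({1}ᶜ : Set ℝ)) := by
    ext ω
    simp [Set.mem_pi, IsSeed]
  rw [h]
  unfold envLaw
  rw [Measure.infinitePi_pi _ (fun _ _ => (measurableSet_singleton _).compl), Finset.prod_map]
  have : ∀ x ∈ F, law d p ν ((⟨Sum.inl, Sum.inl_injective⟩ : Site d ↪ Idx d) x) {1}ᶜ =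
      ENNReal.ofReal (1 - p) := fun x _ => seedLaw_compl p
  rw [Finset.prod_congr rfl this, Finset.prod_const]

instance : Countable (Sym2 (Site d)) :=
  Function.Surjective.countable (f := fun q : Site d × Site d => s(q.1, q.2))
    (by
      intro e
      induction e using Sym2.ind with
      | _ x y => exact ⟨(x, y), rfl⟩)

/-- The set of environments all of whose passage times are at least one. -/
def Slow (d : ℕ) : Set (Env d) := {ω | ∀ (e : Sym2 (Site d)) (b : Bool), 1 ≤ ω (Sum.inr (e, b))}

lemma meas_slow : MeasurableSet (Slow d) := by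
  unfold Slow
  have : {ω : Env d | ∀ (e : Sym2 (Site d)) (b : Bool), 1 ≤ ω (Sum.inr (e, b))} =
      ⋂ e : Sym2 (Site d), ⋂ b : Bool, {ω : Env d | 1 ≤ ω (Sum.inr (e, b))} := by
    ext ω; simp
  rw [this]
  refine MeasurableSet.iInter (fun e => MeasurableSet.iInter (fun b => ?_))
  exact measurableSet_le measurable_const (measurable_pi_apply _)

lemma ae_slow (hν : ∀ᵐ t ∂ν, 1 ≤ t) : ∀ᵐ ω ∂(envLaw d p ν), ω ∈ Slow d := by
  unfold Slow
  simp only [Set.mem_ofPred_eq]
  rw [ae_all_iff]
  intro e
  rw [ae_all_iff]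
  intro b
  have h := (measurePreserving_eval_infinitePi (law d p ν)
    (Sum.inr (e, b))).quasiMeasurePreserving
  exact h.ae hν

end Pool.Agent.FPH
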