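import Pool.Agent.FPH.Blue

/-!
Deterministic part: the second process keeps the negative first axis.
-/

open MeasureTheory ProbabilityTheory

namespace Pool.Agent.FPH

variable {d : ℕ} [NeZero d] {lam : ℝ} {ω : Env d} {T : Site d → ℝ} {c : Site d → Bool}

/-- The sites of the negative first axis. -/
def ax (n : ℕ) : Site d := Pi.single 0 (-(n : ℤ))

omit [NeZero d] in
/-- The sites met going backwards from `v` along the word `w`, the last one excluded. -/
def bp (v : Site d) : List (Fin d × Bool) → List (Site d)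
  | [] => []
  | s :: w => v :: bp (v - stp s) w

/-- Words that can be the end of a seedless path to `ax n`, from its last visit to
the half space `x_1 ≥ -1` on. -/
def Good (n : ℕ) (w : List (Fin d × Bool)) : Prop :=
  (bp (ax n : Site d) w).Nodup ∧ (∀ x ∈ bp (ax n : Site d) w, x 0 ≤ -2) ∧
    n ≤ w.count (0, false) + 1

lemma stp_zero (s : Fin d × Bool) :
    (stp s) 0 = if s = (0, false) then -1 else if s = (0, true) then 1 else 0 := by
  obtain ⟨i, b⟩ := s
  unfold stp
  by_cases hi : i = 0
  · subst hi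
    cases b <;> simp
  · simp [hi]

lemma back_aux (hE : Evolution lam ω T c) (hl0 : 0 < lam) (hl : lam < 1)
    (h1 : ∀ (e : Sym2 (Site d)) (b : Bool), 1 ≤ ω (Sum.inr (e, b))) :
    ∀ (n : ℕ) (y : Site d), T y < n → c y = false →
      ∃ w : List (Fin d × Bool), (bp y w).Nodup ∧
        (∀ x ∈ bp y w, x 0 ≤ -2 ∧ ¬ IsSeed ω x ∧ T x ≤ T y) ∧ (w.length : ℝ) ≤ T y ∧
        -1 - y 0 ≤ (w.count (0, false) : ℤ) := by
  intro n
  induction n with
  | zero =>
    intro y hy _
    have := hE.nonneg y
    simp only [Nat.cast_zero] at hy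
    linarith
  | succ n ih =>
    intro y hy hc
    by_cases hy1 : -1 ≤ y 0
    · refine ⟨[], ?_, ?_, ?_, ?_⟩
      · simp [bp]
      · simp [bp]
      · simpa using hE.nonneg y
      · simp; omega
    · have hy2 : y 0 ≤ -2 := by omega
      have hy0 : y ≠ 0 := by
        intro h; rw [h] at hy2; simp at hy2
      have hs : ¬ IsSeed ω y := by
        intro hs
        rw [hE.seed y hy0 hs] at hc
        exact absurd hc (by simp)
      obtain ⟨x, hxy, hT, hcc⟩ := hE.att y hy0
      have hp := one_le_passage (ω := ω) hl0 hl.le h1 (c x) x y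
      have hTx : T x < n := by
        push_cast at hy
        linarith
      obtain ⟨w, hw1, hw2, hw3, hw4⟩ := ih x hTx (by rw [← hcc hs]; exact hc)
      obtain ⟨s, hs'⟩ := exists_stp_of_adj hxy
      have hxs : y - stp s = x := by rw [hs']; simp
      have hbp : bp y (s :: w) = y :: bp x w := by
        show y :: bp (y - stp s) w = _
        rw [hxs]
      refine ⟨s :: w, ?_, ?_, ?_, ?_⟩
      · rw [hbp, List.nodup_cons]
        refine ⟨fun hmem => ?_, hw1⟩
        have := (hw2 y hmem).2.2
        linarith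
      · rw [hbp]
        intro z hz
        rcases List.mem_cons.mp hz with hz | hz
        · subst hz
          exact ⟨hy2, hs, le_refl _⟩
        · obtain ⟨a, b, e⟩ := hw2 z hz
          exact ⟨a, b, by linarith⟩
      · simp only [List.length_cons, Nat.cast_add, Nat.cast_one]
        linarith
      · have h0 : y 0 = x 0 + (stp s) 0 := by rw [hs']; rfl
        rw [stp_zero] at h0
        rw [List.count_cons]
        by_cases hs0 : s = (0, false)
        · subst hs0
          simp only [if_true] at h0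
          simp only [beq_self_eq_true, if_true]
          push_cast
          omega
        · rw [if_neg hs0] at h0
          have hbeq : (s == (0, false)) = false := by
            simpa using hs0
          rw [hbeq]
          simp only [Bool.false_eq_true, if_false, add_zero]
          by_cases hs1 : s = (0, true)
          · rw [if_pos hs1] at h0
            omega
          · rw [if_neg hs1] at h0
            omega

lemma back_good (hE : Evolution lam ω T c) (hl0 : 0 < lam) (hl : lam < 1)
    (h1 : ∀ (e : Sym2 (Site d)) (b : Bool), 1 ≤ ω (Sum.inr (e, b))) (n : ℕ)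
    (hc : c (ax n) = false) :
    ∃ w : List (Fin d × Bool), Good n w ∧ (∀ x ∈ bp (ax n : Site d) w, ¬ IsSeed ω x) ∧
      (w.length : ℝ) ≤ T (ax n) := by
  obtain ⟨m, hm⟩ := exists_nat_gt (T (ax n))
  obtain ⟨w, h2, h3, h4, h5⟩ := back_aux hE hl0 hl h1 m (ax n) hm hc
  refine ⟨w, ⟨h2, fun x hx => (h3 x hx).1, ?_⟩, fun x hx => (h3 x hx).2.1, h4⟩
  have : (ax n : Site d) 0 = -(n : ℤ) := by simp [ax]
  rw [this] at h5
  omega

lemma cross_aux (hE : Evolution lam ω T c) (hl0 : 0 < lam) (hl : lam < 1)
    (h1 : ∀ (e : Sym2 (Site d)) (b : Bool), 1 ≤ ω (Sum.inr (e, b))) :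
    ∀ (n : ℕ) (y : Site d), T y < n → c y = false → y 0 ≤ -1 →
      ∃ z : Site d, z 0 = -1 ∧ c z = false ∧ T z + nrm (y - z) ≤ T y := by
  intro n
  induction n with
  | zero =>
    intro y hy _
    have := hE.nonneg y
    simp only [Nat.cast_zero] at hy
    linarith
  | succ n ih =>
    intro y hy hc hy1
    by_cases hy2 : y 0 = -1
    · exact ⟨y, hy2, hc, by simp⟩
    · have hy3 : y 0 ≤ -2 := by omega
      have hy0 : y ≠ 0 := by
        intro h; rw [h] at hy3; simp at hy3
      have hs : ¬ IsSeed ω y := by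
        intro hs
        rw [hE.seed y hy0 hs] at hc
        exact absurd hc (by simp)
      obtain ⟨x, hxy, hT, hcc⟩ := hE.att y hy0
      have hp := one_le_passage (ω := ω) hl0 hl.le h1 (c x) x y
      have hTx : T x < n := by
        push_cast at hy
        linarith
      obtain ⟨s, hs'⟩ := exists_stp_of_adj hxy
      have h0 : y 0 = x 0 + (stp s) 0 := by rw [hs']; rfl
      rw [stp_zero] at h0
      have hx1 : x 0 ≤ -1 := by
        split_ifs at h0 <;> omega
      obtain ⟨z, hz1, hz2, hz3⟩ := ih x hTx (by rw [← hcc hs]; exact hc) hx1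
      refine ⟨z, hz1, hz2, ?_⟩
      have hn : nrm (y - z) ≤ nrm (x - z) + 1 := by
        refine nrm_le_of_adj ?_
        show ∑ i, |(x - z) i - (y - z) i| = 1
        have h2 : ∑ i, |x i - y i| = 1 := hxy
        rw [← h2]
        refine Finset.sum_congr rfl (fun i _ => ?_)
        simp
      have hn' : (nrm (y - z) : ℝ) ≤ nrm (x - z) + 1 := by exact_mod_cast hn
      linarith

lemma two_le_nrm (x : Site d) {i : Fin d} (hi : i ≠ 0) : |x 0| + |x i| ≤ nrm x := by
  unfold nrm
  rw [← Finset.add_sum_erase Finset.univ (fun j => |x j|) (Finset.mem_univ 0)]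
  have := Finset.single_le_sum (f := fun j => |x j|) (fun _ _ => abs_nonneg _)
    (Finset.mem_erase.mpr ⟨hi, Finset.mem_univ i⟩)
  linarith

/-- Behind a wall of seeds the first process needs a long time. -/
lemma wall_time (hE : Evolution lam ω T c) (hl0 : 0 < lam) (hl : lam < 1)
    (h1 : ∀ (e : Sym2 (Site d)) (b : Bool), 1 ≤ ω (Sum.inr (e, b))) (M : ℕ)
    (hwall : ∀ x : Site d, x 0 = -1 → (∀ i, i ≠ 0 → |x i| ≤ M) → IsSeed ω x) (n : ℕ)
    (hn : 1 ≤ n) (hc : c (ax n) = false) : (n : ℝ) + 2 * M + 2 ≤ T (ax n) := by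
  obtain ⟨m, hm⟩ := exists_nat_gt (T (ax n))
  have hax : (ax n : Site d) 0 = -(n : ℤ) := by simp [ax]
  obtain ⟨z, hz1, hz2, hz3⟩ := cross_aux hE hl0 hl h1 m (ax n) hm hc (by rw [hax]; omega)
  have hz0 : z ≠ 0 := by
    intro h; rw [h] at hz1; simp at hz1
  have hzs : ¬ IsSeed ω z := by
    intro hs
    rw [hE.seed z hz0 hs] at hz2
    exact absurd hz2 (by simp)
  obtain ⟨i, hi, hiM⟩ : ∃ i, i ≠ 0 ∧ (M : ℤ) < |z i| := by
    by_contra hcon
    push Not at hcon
    exact hzs (hwall z hz1 hcon)
  have h2 := two_le_nrm z hi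
  rw [hz1] at h2
  have h3 := two_le_nrm (ax n - z) hi
  have h4 : (ax n - z : Site d) 0 = -(n : ℤ) + 1 := by
    show (ax n : Site d) 0 - z 0 = _
    rw [hax, hz1]; ring
  have h5 : |(ax n - z : Site d) i| = |z i| := by
    have : (ax n : Site d) i = 0 := by simp [ax, Pi.single_eq_of_ne hi]
    show |(ax n : Site d) i - z i| = _
    rw [this]; simp
  rw [h4, h5] at h3
  have h6 : |(-(n : ℤ) + 1)| = (n : ℤ) - 1 := by
    rw [abs_of_nonpos (by omega)]; ring
  rw [h6] at h3
  have h7 : (n : ℤ) + 2 * M + 2 ≤ nrm z + nrm (ax n - z) := by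
    have : |(-1 : ℤ)| = 1 := by norm_num
    rw [this] at h2
    omega
  have h8 : (n : ℝ) + 2 * M + 2 ≤ nrm z + nrm (ax n - z : Site d) := by exact_mod_cast h7
  have h9 := nrm_le_T hE hl0 hl h1 z
  linarith

lemma ax_adj (n : ℕ) : (lattice d).Adj (ax n) (ax (n + 1)) := by
  have : (ax (n + 1) : Site d) = ax n + stp (0, false) := by
    funext j
    by_cases hj : j = 0
    · subst hj
      simp [ax, stp]
      ring
    · simp [ax, stp, Pi.single_eq_of_ne hj]
  rw [this]
  exact adj_stp _ _

lemma ax_ne_zero {n : ℕ} (hn : 1 ≤ n) : (ax n : Site d) ≠ 0 := by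
  intro h
  have := congrFun h 0
  simp [ax] at this
  omega

lemma ax_inj {m n : ℕ} (h : (ax m : Site d) = ax n) : m = n := by
  have := congrFun h 0
  simp [ax] at this
  exact this

/-- Time bound along the axis. -/
noncomputable def axT (lam : ℝ) (ω : Env d) (n : ℕ) : ℝ :=
  ω (Sum.inr (s(0, ax 1), false)) +
    (∑ k ∈ Finset.range n, ω (Sum.inr (s(ax k, ax (k + 1)), true))) / lam

/-- (R) all sites of the negative axis belong to the second process. -/
lemma red_axis (hE : Evolution lam ω T c) (hl0 : 0 < lam) (hl : lam < 1)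
    (h1 : ∀ (e : Sym2 (Site d)) (b : Bool), 1 ≤ ω (Sum.inr (e, b))) (M N : ℕ)
    (hwall : ∀ x : Site d, x 0 = -1 → (∀ i, i ≠ 0 → |x i| ≤ M) → IsSeed ω x)
    (hsmall : ∀ n, n < N → axT lam ω n < n + 2 * M + 2)
    (hlong : ∀ n, N ≤ n → ∀ w : List (Fin d × Bool), Good n w →
      (w.length : ℝ) ≤ axT lam ω n → ∃ x ∈ bp (ax n : Site d) w, IsSeed ω x) :
    ∀ n, c (ax (n + 1)) = true ∧ T (ax (n + 1)) ≤ axT lam ω (n + 1) := by
  intro n
  induction n with
  | zero =>
    have hs : IsSeed ω (ax 1) := by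
      refine hwall _ (by simp [ax]) (fun i hi => ?_)
      simp [ax, Pi.single_eq_of_ne hi]
    refine ⟨hE.seed _ (ax_ne_zero le_rfl) hs, ?_⟩
    have h0 : (ax 0 : Site d) = 0 := by simp [ax]
    have hadj : (lattice d).Adj (0 : Site d) (ax 1) := by
      have := ax_adj (d := d) 0
      rw [h0] at this
      exact this
    have hle := hE.le _ _ hadj
    rw [hE.start.1, hE.start.2] at hle
    have hb := h1 s(ax 0, ax (0 + 1)) true
    have hp : passage lam ω false (0 : Site d) (ax 1) = ω (Sum.inr (s(0, ax 1), false)) := by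
      simp [passage]
    rw [hp] at hle
    unfold axT
    simp only [zero_add, Finset.range_one, Finset.sum_singleton]
    have : 0 ≤ ω (Sum.inr (s(ax 0, ax (0 + 1)), true)) / lam :=
      div_nonneg (by linarith) hl0.le
    simp only [zero_add] at this
    linarith
  | succ n ih =>
    obtain ⟨hcn, hTn⟩ := ih
    have hle := hE.le _ _ (ax_adj (d := d) (n + 1))
    have hT : T (ax (n + 1 + 1)) ≤ axT lam ω (n + 1 + 1) := by
      rw [hcn] at hle
      have hp : passage lam ω true (ax (n + 1) : Site d) (ax (n + 1 + 1)) =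
          ω (Sum.inr (s(ax (n + 1), ax (n + 1 + 1)), true)) / lam := by
        simp [passage]
      rw [hp] at hle
      have hax : axT lam ω (n + 1 + 1) = axT lam ω (n + 1) +
          ω (Sum.inr (s(ax (n + 1), ax (n + 1 + 1)), true)) / lam := by
        unfold axT
        rw [Finset.sum_range_succ _ (n + 1)]
        ring
      rw [hax]
      linarith
    refine ⟨?_, hT⟩
    by_contra hc
    have hc' : c (ax (n + 1 + 1)) = false := by simpa using hc
    by_cases hN : n + 1 + 1 < N
    · have h2 := hsmall (n + 1 + 1) hN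
      have h3 := wall_time hE hl0 hl h1 M hwall (n + 1 + 1) (by omega) hc'
      linarith
    · obtain ⟨w, hw1, hw2, hw3⟩ := back_good hE hl0 hl h1 (n + 1 + 1) hc'
      obtain ⟨x, hx, hxs⟩ := hlong (n + 1 + 1) (by omega) w hw1 (le_trans hw3 hT)
      exact hw2 x hx hxs

lemma survives_true_of_axis (h : ∀ n, c (ax (n + 1)) = true) : Survives c true := by
  refine ⟨{x | ∃ n : ℕ, x = ax (n + 1)}, ?_, ?_, ?_⟩
  · refine Set.infinite_of_injective_forall_mem (f := fun n : ℕ => (ax (n + 1) : Site d)) ?_
      (fun n => ⟨n, rfl⟩)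
    intro m n hmn
    have := ax_inj hmn
    omega
  · rintro x ⟨n, rfl⟩
    exact h n
  · have h0 : (ax 1 : Site d) ∈ {x : Site d | ∃ n : ℕ, x = ax (n + 1)} := ⟨0, rfl⟩
    have key : ∀ (n : ℕ),
        ((lattice d).induce {x : Site d | ∃ n : ℕ, x = ax (n + 1)}).Reachable ⟨ax 1, h0⟩
          ⟨ax (n + 1), ⟨n, rfl⟩⟩ := by
      intro n
      induction n with
      | zero => exact SimpleGraph.Reachable.refl _
      | succ n ih =>
        refine ih.trans (SimpleGraph.Adj.reachable ?_)
        show (lattice d).Adj (ax (n + 1)) (ax (n + 1 + 1))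
        exact ax_adj _
    refine { preconnected := ?_, nonempty := ⟨⟨ax 1, h0⟩⟩ }
    rintro ⟨x, m, rfl⟩ ⟨y, n, rfl⟩
    exact (key m).symm.trans (key n)

end Pool.Agent.FPH
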